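import Pool.Agent.MP_33dedf_lc.Defs

/-!
Basic facts on computability relative to a sequence `A : ℕ → Bool`.
-/

set_option autoImplicit false

namespace Pool.Agent.MP_33dedf_lc

open Encodable
open Nat.Partrec (Code)

@[simp] theorem seg_length (A : ℕ → Bool) (n : ℕ) : (seg A n).length = n := by simp [seg]

theorem seg_zero (A : ℕ → Bool) : seg A 0 = [] := by simp [seg]

theorem seg_succ (A : ℕ → Bool) (n : ℕ) : seg A (n + 1) = seg A n ++ [A n] := by
  simp [seg, List.range_succ]

theorem seg_take (A : ℕ → Bool) {m n : ℕ} (h : m ≤ n) : (seg A n).take m = seg A m := by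
  rw [seg, seg, ← List.map_take, List.take_range, min_eq_left h]

theorem seg_prefix (A : ℕ → Bool) {m n : ℕ} (h : m ≤ n) : seg A m <+: seg A n := by
  rw [← seg_take A h]
  exact List.take_prefix _ _

theorem seg_getElem? (A : ℕ → Bool) {m n : ℕ} (h : m < n) : (seg A n)[m]? = some (A m) := by
  simp [seg, h]

theorem seg_getElem?_none (A : ℕ → Bool) {m n : ℕ} (h : n ≤ m) : (seg A n)[m]? = none := by
  simp [seg, h]

section general

variable {α β γ δ : Type*} [Primcodable α] [Primcodable β] [Primcodable γ] [Primcodable δ]
variable {O : Set (ℕ →. ℕ)}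

theorem RecursiveIn_comp {f : β →. γ} {g : α → β} (hf : RecursiveIn O f)
    (hg : ComputableIn O g) : RecursiveIn O (fun a => f (g a)) := by
  unfold ComputableIn at hg
  unfold RecursiveIn at *
  refine (Nat.RecursiveIn.comp hf hg).of_eq fun n => ?_
  cases h : decode (α := α) n with
  | none => simp
  | some a => simp

theorem ComputableIn_comp {f : β → γ} {g : α → β} (hf : ComputableIn O f)
    (hg : ComputableIn O g) : ComputableIn O (fun a => f (g a)) :=
  RecursiveIn_comp (f := fun b => Part.some (f b)) hf hg

theorem ComputableIn_pair {f : α → β} {g : α → γ} (hf : ComputableIn O f)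
    (hg : ComputableIn O g) : ComputableIn O (fun a => (f a, g a)) := by
  unfold ComputableIn RecursiveIn at *
  refine (Nat.RecursiveIn.pair hf hg).of_eq fun n => ?_
  cases h : decode (α := α) n with
  | none => simp [Seq.seq]
  | some a => simp [Seq.seq]

theorem ComputableIn_comp₂ {f : β → γ → δ} {g : α → β} {h : α → γ} (hf : Computable₂ f)
    (hg : ComputableIn O g) (hh : ComputableIn O h) : ComputableIn O (fun a => f (g a) (h a)) :=
  ComputableIn_comp (f := fun p : β × γ => f p.1 p.2) (Computable.computableIn hf)
    (ComputableIn_pair hg hh)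

/-- an unbounded search relative to an oracle -/
theorem RecursiveIn_rfind {p : α → ℕ → Bool} (hp : ComputableIn O (fun q : α × ℕ => p q.1 q.2)) :
    RecursiveIn O (fun a => Nat.rfind (fun n => Part.some (p a n))) := by
  have h1 : Nat.RecursiveIn O (fun n => ((decode (α := α × ℕ) n : Option (α × ℕ)) :
      Part (α × ℕ)).bind fun q => Part.some (bif p q.1 q.2 then 0 else 1)) := by
    have : ComputableIn O (fun q : α × ℕ => bif p q.1 q.2 then 0 else 1) :=
      ComputableIn_comp (f := fun b : Bool => bif b then 0 else 1)
        (Primrec.dom_bool _).to_comp.computableIn hp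
    simpa [ComputableIn, RecursiveIn] using this
  have h2 := Nat.RecursiveIn.rfind h1
  -- guard by decodability
  have h3 : Nat.RecursiveIn O (fun n => ((decode (α := α) n : Option α) : Part α).bind
      fun _ => Part.some n) := by
    have : Computable (fun n : ℕ => (decode (α := α) n)) := Computable.decode
    have h4 : Partrec (fun n : ℕ => ((decode (α := α) n : Option α) : Part α).bind
        fun _ => Part.some n) :=
      Partrec.bind (Computable.ofOption this) (Computable.fst.partrec).to₂
    exact (Partrec.nat_iff.1 h4).recursiveIn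
  unfold RecursiveIn
  refine (Nat.RecursiveIn.comp h2 h3).of_eq fun n => ?_
  cases h : decode (α := α) n with
  | none => simp
  | some a =>
    simp only [Part.coe_some, Part.bind_some, Part.bind_eq_bind]
    have : (fun m : ℕ => (fun m => decide (m = 0)) <$>
        ((decode (α := α × ℕ) (Nat.pair n m) : Option (α × ℕ)) : Part (α × ℕ)).bind
        fun q => Part.some (bif p q.1 q.2 then 0 else 1)) = fun m => Part.some (p a m) := by
      funext m
      have hd : decode (α := α × ℕ) (Nat.pair n m) = some (a, m) := by
        simp [Encodable.decode_prod_val, h]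
      rw [hd]
      cases hb : p a m <;> simp [hb]
    rw [this]
    exact (Part.map_id' (fun _ => rfl) _).symm

theorem NatRecursiveIn_prec' {f g h : ℕ →. ℕ} (hf : Nat.RecursiveIn O f)
    (hg : Nat.RecursiveIn O g) (hh : Nat.RecursiveIn O h) :
    Nat.RecursiveIn O fun a => (f a).bind fun n => n.rec (g a)
      fun y IH => do {let i ← IH; h (Nat.pair a (Nat.pair y i))} :=
  ((Nat.RecursiveIn.prec hg hh).comp
    (Nat.RecursiveIn.pair (Nat.Partrec.some).recursiveIn hf)).of_eq fun a =>
    Part.ext fun s => by simp [Seq.seq]

theorem RecursiveIn_nat_rec {f : α → ℕ} {g : α →. β} {h : α → ℕ × β →. β}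
    (hf : ComputableIn O f) (hg : RecursiveIn O g)
    (hh : RecursiveIn O (fun q : α × (ℕ × β) => h q.1 q.2)) :
    RecursiveIn O fun a => (f a).rec (g a) fun y IH => IH.bind fun i => h a (y, i) :=
  (NatRecursiveIn_prec' hf hg hh).of_eq fun n => by
    rcases e : decode (α := α) n with - | a <;> simp [e]
    induction f a <;> simp [*]

theorem ComputableIn_nat_rec {f : α → ℕ} {g : α → β} {h : α → ℕ × β → β}
    (hf : ComputableIn O f) (hg : ComputableIn O g)
    (hh : ComputableIn O (fun q : α × (ℕ × β) => h q.1 q.2)) :
    ComputableIn O fun a => (Nat.rec (g a) (fun y IH => h a (y, IH)) (f a) : β) := by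
  have := RecursiveIn_nat_rec (f := f) (g := fun a => Part.some (g a))
    (h := fun a q => Part.some (h a q)) hf hg hh
  refine RecursiveIn.of_eq this fun a => ?_
  have key : ∀ n : ℕ, (Nat.rec (Part.some (g a)) (fun y IH => IH.bind fun i =>
      Part.some (h a (y, i))) n : Part β) =
      Part.some (Nat.rec (g a) (fun y IH => h a (y, IH)) n : β) := by
    intro n
    induction n with
    | zero => rfl
    | succ n ih => simp only [ih, Part.bind_some]
  exact key (f a)

theorem RecursiveIn_bind {f : α →. β} {g : α → β →. γ} (hf : RecursiveIn O f)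
    (hg : RecursiveIn O (fun q : α × β => g q.1 q.2)) : RecursiveIn O fun a => (f a).bind (g a) := by
  unfold RecursiveIn at *
  refine (Nat.RecursiveIn.comp hg
    (Nat.RecursiveIn.pair (Nat.Partrec.some).recursiveIn hf)).of_eq fun n => ?_
  cases h : decode (α := α) n with
  | none => simp [Seq.seq]
  | some a =>
    simp only [Seq.seq, Part.bind_map, h, Part.coe_some, Part.bind_some, Part.bind_eq_bind,
      Part.map_eq_map, Part.map_some, Encodable.decode_prod_val, Nat.unpair_pair,
      Encodable.encodek, Option.bind_some, Option.map_some]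
    exact (Part.map_bind _ _ _).symm

theorem RecursiveIn_ofOption {f : α → Option β} (hf : ComputableIn O f) :
    RecursiveIn O fun a => (f a : Part β) :=
  RecursiveIn_comp (f := fun o : Option β => (o : Part β))
    (Computable.ofOption Computable.id).recursiveIn hf

end general

theorem chi_iff {O : Set (ℕ →. ℕ)} {A : ℕ → Bool} :
    RecursiveIn O (chi A) ↔ ComputableIn O A := by
  unfold ComputableIn RecursiveIn chi
  have : ∀ n : ℕ, Encodable.encode (A n) = (A n).toNat := by
    intro n
    cases A n <;> rfl
  simp [this]

theorem ComputableIn_chi (A : ℕ → Bool) : ComputableIn {chi A} A :=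
  chi_iff.1 (RecursiveIn.oracle _ rfl)

theorem ComputableIn_seg {O : Set (ℕ →. ℕ)} {A : ℕ → Bool} (hA : ComputableIn O A) :
    ComputableIn O (seg A) := by
  have := ComputableIn_nat_rec (O := O) (f := fun n : ℕ => n) (g := fun _ => ([] : List Bool))
    (h := fun _ q => q.2 ++ [A q.1]) ComputableIn.id (ComputableIn.const _)
    (ComputableIn_comp₂ (f := fun (l : List Bool) (b : Bool) => l ++ [b])
      (Computable.list_concat)
      (Computable.computableIn (Computable.snd.comp Computable.snd))
      (ComputableIn_comp hA (Computable.computableIn (Computable.fst.comp Computable.snd))))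
  refine RecursiveIn.of_eq this fun n => ?_
  congr 1
  induction n with
  | zero => rfl
  | succ n ih => rw [seg_succ, ← ih]

/-- the partial function computed from a computable family of finite approximations -/
theorem RecursiveIn_rfindOpt {α β : Type*} [Primcodable α] [Primcodable β]
    {O : Set (ℕ →. ℕ)} {A : ℕ → Bool} (hA : ComputableIn O A)
    {g : List Bool → α → Option β} (hg : Computable₂ g) :
    RecursiveIn O (fun a => Nat.rfindOpt fun t => g (seg A t) a) := by
  have h1 : ComputableIn O (fun q : α × ℕ => g (seg A q.2) q.1) :=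
    ComputableIn_comp₂ hg (ComputableIn_comp (ComputableIn_seg hA) ComputableIn.snd)
      ComputableIn.fst
  have h2 : ComputableIn O (fun q : α × ℕ => (g (seg A q.2) q.1).isSome) :=
    ComputableIn_comp (Primrec.option_isSome.to_comp.computableIn) h1
  have h3 := RecursiveIn_rfind (p := fun (a : α) (t : ℕ) => (g (seg A t) a).isSome) h2
  exact RecursiveIn_bind h3 (RecursiveIn_ofOption h1)

end Pool.Agent.MP_33dedf_lc
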