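import Mathlib

/-!
Contents on the binary tree.  The content of a set `V` of strings below a node `v` is computed
level by level: at a level `n` with `s n = true` the two subtrees are averaged, at a level with
`s n = false` they are added (and the result is truncated at one).
-/

set_option autoImplicit false

namespace Pool.Agent.MP_33dedf_lc

open Classical in
/-- The content of `V` below `v`, looking at `k` levels. -/
noncomputable def con (s : ℕ → Bool) (V : Set (List Bool)) : ℕ → List Bool → ℝ
  | 0, v => if v ∈ V then 1 else 0
  | k + 1, v => if v ∈ V then 1 else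
      if s v.length = true then (con s V k (v ++ [false]) + con s V k (v ++ [true])) / 2
      else min 1 (con s V k (v ++ [false]) + con s V k (v ++ [true]))

variable {s s' : ℕ → Bool} {V W : Set (List Bool)}

theorem con_mem {k : ℕ} {v : List Bool} (h : v ∈ V) : con s V k v = 1 := by
  cases k <;> simp [con, h]

theorem con_zero_not_mem {v : List Bool} (h : v ∉ V) : con s V 0 v = 0 := by
  simp [con, h]

theorem con_succ_true {k : ℕ} {v : List Bool} (h : v ∉ V) (hs : s v.length = true) :
    con s V (k + 1) v = (con s V k (v ++ [false]) + con s V k (v ++ [true])) / 2 := by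
  simp [con, h, hs]

theorem con_succ_false {k : ℕ} {v : List Bool} (h : v ∉ V) (hs : s v.length = false) :
    con s V (k + 1) v = min 1 (con s V k (v ++ [false]) + con s V k (v ++ [true])) := by
  simp [con, h, hs]

theorem con_nonneg (s : ℕ → Bool) (V : Set (List Bool)) (k : ℕ) (v : List Bool) :
    0 ≤ con s V k v := by
  induction k generalizing v with
  | zero => by_cases h : v ∈ V <;> simp [con, h]
  | succ k ih =>
    by_cases h : v ∈ V
    · rw [con_mem h]; norm_num
    · cases hs : s v.length with
      | true =>
        rw [con_succ_true h hs]
        have := ih (v ++ [false]); have := ih (v ++ [true]); positivity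
      | false =>
        rw [con_succ_false h hs]
        exact le_min zero_le_one (add_nonneg (ih _) (ih _))

theorem con_le_one (s : ℕ → Bool) (V : Set (List Bool)) (k : ℕ) (v : List Bool) :
    con s V k v ≤ 1 := by
  induction k generalizing v with
  | zero => by_cases h : v ∈ V <;> simp [con, h]
  | succ k ih =>
    by_cases h : v ∈ V
    · rw [con_mem h]
    · cases hs : s v.length with
      | true =>
        rw [con_succ_true h hs]
        have := ih (v ++ [false]); have := ih (v ++ [true]); linarith
      | false =>
        rw [con_succ_false h hs]
        exact min_le_left _ _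

/-- monotonicity in the set, the number of levels and the slopes -/
theorem con_mono (hs : ∀ n, s' n = true → s n = true) (hV : V ⊆ W) {k k' : ℕ} (hk : k ≤ k')
    (v : List Bool) : con s V k v ≤ con s' W k' v := by
  induction k' generalizing v k with
  | zero =>
    obtain rfl : k = 0 := by omega
    by_cases h : v ∈ V
    · rw [con_mem h, con_mem (hV h)]
    · rw [con_zero_not_mem h]
      exact con_nonneg _ _ _ _
  | succ k' ih =>
    by_cases h' : v ∈ W
    · rw [con_mem h']
      exact con_le_one _ _ _ _
    have h : v ∉ V := fun h => h' (hV h)
    cases k with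
    | zero =>
      rw [con_zero_not_mem h]
      exact con_nonneg _ _ _ _
    | succ k =>
      have h0 := ih (k := k) (by omega) (v ++ [false])
      have h1 := ih (k := k) (by omega) (v ++ [true])
      have n0 := con_nonneg s V k (v ++ [false])
      have n1 := con_nonneg s V k (v ++ [true])
      have l0 := con_le_one s V k (v ++ [false])
      have l1 := con_le_one s V k (v ++ [true])
      cases e : s v.length with
      | true =>
        rw [con_succ_true h e]
        cases e' : s' v.length with
        | true =>
          rw [con_succ_true h' e']
          linarith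
        | false =>
          rw [con_succ_false h' e']
          refine le_min ?_ ?_ <;> linarith
      | false =>
        have e' : s' v.length = false := by
          by_contra hne
          have := hs _ (by simpa using hne)
          rw [e] at this
          exact absurd this (by simp)
        rw [con_succ_false h e, con_succ_false h' e']
        exact min_le_min le_rfl (by linarith)

theorem con_mono_set (hV : V ⊆ W) (k : ℕ) (v : List Bool) : con s V k v ≤ con s W k v :=
  con_mono (fun _ h => h) hV le_rfl v

theorem con_mono_level {k k' : ℕ} (hk : k ≤ k') (v : List Bool) : con s V k v ≤ con s V k' v :=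
  con_mono (fun _ h => h) le_rfl hk v

/-- the content only depends on the strings extending `v` by at most `k` bits -/
theorem con_congr {k : ℕ} {v : List Bool}
    (h : ∀ w : List Bool, v <+: w → w.length ≤ v.length + k → (w ∈ V ↔ w ∈ W)) :
    con s V k v = con s W k v := by
  induction k generalizing v with
  | zero =>
    have := h v (List.prefix_refl _) (by simp)
    by_cases hv : v ∈ V
    · rw [con_mem hv, con_mem (this.1 hv)]
    · rw [con_zero_not_mem hv, con_zero_not_mem (fun h' => hv (this.2 h'))]
  | succ k ih =>
    have h0 := ih (v := v ++ [false]) (fun w hw hl => h w ((List.prefix_append _ _).trans hw)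
      (by simp at hl; omega))
    have h1 := ih (v := v ++ [true]) (fun w hw hl => h w ((List.prefix_append _ _).trans hw)
      (by simp at hl; omega))
    have := h v (List.prefix_refl _) (by omega)
    by_cases hv : v ∈ V
    · rw [con_mem hv, con_mem (this.1 hv)]
    · have hw : v ∉ W := fun h' => hv (this.2 h')
      cases e : s v.length with
      | true => rw [con_succ_true hv e, con_succ_true hw e, h0, h1]
      | false => rw [con_succ_false hv e, con_succ_false hw e, h0, h1]

/-! ### The integer version -/

/-- `2 ^ k` times the content of the finite set `B` -/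
def cnt (s : ℕ → Bool) (B : List (List Bool)) : ℕ → List Bool → ℕ
  | 0, v => if v ∈ B then 1 else 0
  | k + 1, v => if v ∈ B then 2 ^ (k + 1) else
      if s v.length = true then cnt s B k (v ++ [false]) + cnt s B k (v ++ [true])
      else min (2 ^ (k + 1)) (2 * (cnt s B k (v ++ [false]) + cnt s B k (v ++ [true])))

theorem cnt_eq (s : ℕ → Bool) (B : List (List Bool)) (k : ℕ) (v : List Bool) :
    (cnt s B k v : ℝ) = 2 ^ k * con s {w | w ∈ B} k v := by
  induction k generalizing v with
  | zero => by_cases h : v ∈ B <;> simp [con, cnt, h]
  | succ k ih =>
    by_cases h : v ∈ B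
    · rw [con_mem (by exact h)]
      simp [cnt, h]
    · cases e : s v.length with
      | true =>
        rw [con_succ_true (by exact h) e]
        simp only [cnt, h, e, if_true, if_false]
        push_cast
        rw [ih, ih]
        ring
      | false =>
        rw [con_succ_false (by exact h) e]
        simp only [cnt, h, e, if_false, Bool.false_eq_true]
        push_cast
        rw [ih, ih]
        rw [mul_min_of_nonneg _ _ (by positivity : (0:ℝ) ≤ 2 ^ (k + 1))]
        congr 1
        · simp
        · ring

theorem primrec_pow_const (b : ℕ) : Primrec (fun n : ℕ => b ^ n) := by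
  have : Primrec (fun n : ℕ => (Nat.rec 1 (fun _ x => x * b) n : ℕ)) :=
    Primrec.nat_rec₁ 1 (Primrec.nat_mul.comp Primrec.snd (Primrec.const b))
  refine this.of_eq fun n => ?_
  induction n with
  | zero => rfl
  | succ n ih => rw [pow_succ, ← ih]

theorem primrec_cnt {s : ℕ → Bool} (hs : Primrec s) :
    Primrec (fun q : List (List Bool) × (ℕ × List Bool) => cnt s q.1 q.2.1 q.2.2) := by
  have key : Primrec₂ (fun (B : List (List Bool)) (q : ℕ × List Bool) => cnt s B q.1 q.2) := by
    let l : List (List Bool) → ℕ × List Bool → List (ℕ × List Bool) := fun _ q =>
      Nat.casesOn q.1 [] (fun k => [(k, q.2 ++ [false]), (k, q.2 ++ [true])])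
    let g : List (List Bool) → (ℕ × List Bool) × List ℕ → Option ℕ := fun B q =>
      some (if q.1.2 ∈ B then 2 ^ q.1.1 else
        if q.1.1 = 0 then 0 else
        if s q.1.2.length = true then (q.2.getD 0 0) + (q.2.getD 1 0)
        else min (2 ^ q.1.1) (2 * ((q.2.getD 0 0) + (q.2.getD 1 0))))
    refine Primrec.nat_omega_rec (fun (B : List (List Bool)) (q : ℕ × List Bool) =>
      cnt s B q.1 q.2) (m := fun _ q => q.1) (l := l) (g := g) ?_ ?_ ?_ ?_ ?_
    · exact Primrec.fst.comp Primrec.snd
    · refine Primrec.nat_casesOn (f := fun p : List (List Bool) × (ℕ × List Bool) => p.2.1)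
        (g := fun _ => []) (h := fun p k => [(k, p.2.2 ++ [false]), (k, p.2.2 ++ [true])])
        (Primrec.fst.comp Primrec.snd) (Primrec.const _) ?_
      have hv : Primrec (fun p : (List (List Bool) × (ℕ × List Bool)) × ℕ => p.1.2.2) :=
        Primrec.snd.comp (Primrec.snd.comp Primrec.fst)
      refine Primrec.list_cons.comp (Primrec.snd.pair (Primrec.list_concat.comp hv
        (Primrec.const false))) (Primrec.list_cons.comp (Primrec.snd.pair
        (Primrec.list_concat.comp hv (Primrec.const true))) (Primrec.const []))
    · refine Primrec.option_some.comp ?_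
      have hB : Primrec (fun p : List (List Bool) × ((ℕ × List Bool) × List ℕ) => p.1) :=
        Primrec.fst
      have hk : Primrec (fun p : List (List Bool) × ((ℕ × List Bool) × List ℕ) => p.2.1.1) :=
        Primrec.fst.comp (Primrec.fst.comp Primrec.snd)
      have hv : Primrec (fun p : List (List Bool) × ((ℕ × List Bool) × List ℕ) => p.2.1.2) :=
        Primrec.snd.comp (Primrec.fst.comp Primrec.snd)
      have hL : Primrec (fun p : List (List Bool) × ((ℕ × List Bool) × List ℕ) => p.2.2) :=
        Primrec.snd.comp Primrec.snd
      have hpow : Primrec (fun p : List (List Bool) × ((ℕ × List Bool) × List ℕ) =>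
          2 ^ p.2.1.1) := (primrec_pow_const 2).comp hk
      have hsum : Primrec (fun p : List (List Bool) × ((ℕ × List Bool) × List ℕ) =>
          (p.2.2.getD 0 0) + (p.2.2.getD 1 0)) :=
        Primrec.nat_add.comp ((Primrec.list_getD 0).comp hL (Primrec.const 0))
          ((Primrec.list_getD 0).comp hL (Primrec.const 1))
      have hmem : PrimrecPred (fun p : List (List Bool) × ((ℕ × List Bool) × List ℕ) =>
          p.2.1.2 ∈ p.1) := by
        have := (PrimrecRel.exists_mem_list (R := fun a b : List Bool => a = b)
          Primrec.eq).comp hB hv
        refine this.of_eq fun p => ?_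
        simp
      refine Primrec.ite hmem hpow (Primrec.ite (Primrec.eq.comp hk (Primrec.const 0))
        (Primrec.const 0) (Primrec.ite (Primrec.eq.comp (hs.comp (Primrec.list_length.comp hv))
          (Primrec.const true)) hsum
        (Primrec.nat_min.comp hpow (Primrec.nat_mul.comp (Primrec.const 2) hsum))))
    · rintro B ⟨k, v⟩ ⟨k', v'⟩ h
      cases k with
      | zero => simp [l] at h
      | succ k =>
        simp only [l, List.mem_cons, List.not_mem_nil, or_false] at h
        rcases h with h | h <;> (have h2 := congrArg Prod.fst h; simp at h2; simp [h2])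
    · rintro B ⟨k, v⟩
      cases k with
      | zero =>
        by_cases h : v ∈ B <;> simp [g, l, cnt, h]
      | succ k =>
        by_cases h : v ∈ B <;> simp [g, l, cnt, h]
  exact key

end Pool.Agent.MP_33dedf_lc
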