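import Mathlib

/-!
Definitions: oracles, initial segments, the Turing jump, prefix-free machines with oracle and
the complexity they define.
-/

set_option autoImplicit false

namespace Pool.Agent.MP_33dedf_lc

open Encodable
open Nat.Partrec (Code)

/-- The characteristic function of the sequence `A`, as an oracle. -/
def chi (A : ℕ → Bool) : ℕ →. ℕ := fun n => Part.some (A n).toNat

/-- The initial segment `A ↾ n` of the sequence `A`. -/
def seg (A : ℕ → Bool) (n : ℕ) : List Bool := (List.range n).map A

open Classical in
/-- The Turing jump of `A`: the set of all `e` such that the `e`-th partial recursive function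
halts on the input `⟨σ, e⟩` for some finite initial segment `σ` of `A`. (It is recursively
enumerable in `A`, and every set recursively enumerable in `A` is many-one reducible to it:
see `jump_re` and `jump_complete`.) -/
noncomputable def jump (A : ℕ → Bool) : ℕ → Bool := fun e =>
  decide (∃ n, ((Denumerable.ofNat Code e).eval (Nat.pair (encode (seg A n)) e)).Dom)

/-- The domain of the machine `M` is prefix-free. -/
def PrefixFree (M : List Bool →. List Bool) : Prop :=
  ∀ p q : List Bool, (M p).Dom → (M q).Dom → p <+: q → p = q

/-- `M` is a prefix-free machine with oracle `A`: a partial function on finite binary strings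
which is recursive in `A` and has prefix-free domain. -/
structure IsPrefixMachine (A : ℕ → Bool) (M : List Bool →. List Bool) : Prop where
  recursive : RecursiveIn {chi A} M
  free : PrefixFree M

/-- The complexity of the string `v` with respect to the machine `M`: the least length of a
program `p` with `M p = v` (and `⊤` if there is none). -/
noncomputable def KM (M : List Bool →. List Bool) (v : List Bool) : ℕ∞ :=
  ⨅ (p : List Bool) (_ : v ∈ M p), (p.length : ℕ∞)

/-- `U` is an optimal prefix-free machine with oracle `A`. -/
structure IsOptimal (A : ℕ → Bool) (U : List Bool →. List Bool) : Prop where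
  machine : IsPrefixMachine A U
  optimal : ∀ M, IsPrefixMachine A M → ∃ c : ℕ, ∀ v, KM U v ≤ KM M v + c

end Pool.Agent.MP_33dedf_lc
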