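import Pool.Agent.MP_33dedf_lc.DimDefs

/-!
Basic facts on prefix-free Kolmogorov complexity and effective dimension relative to an oracle.
-/

set_option autoImplicit false

namespace Pool.Agent.MP_33dedf_lc

theorem K_le {A : ℕ → Bool} {p v : List Bool} (h : v ∈ optMachine A p) :
    K A v ≤ (p.length : ℕ∞) := iInf₂_le p h

theorem le_K {A : ℕ → Bool} {v : List Bool} {c : ℕ∞}
    (h : ∀ p, v ∈ optMachine A p → c ≤ (p.length : ℕ∞)) : c ≤ K A v := le_iInf₂ h

/-- if every program for `X ↾ n` has length at least `(a / b) n` for all large `n`, then the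
dimension is at least `a / b` -/
theorem le_effDim {A X : ℕ → Bool} {a b : ℕ} (hb : 0 < b) {k : ℕ}
    (h : ∀ n, k ≤ n → ∀ p, seg X n ∈ optMachine A p → a * n ≤ p.length * b) :
    (a : ENNReal) / b ≤ effDim A X := by
  refine Filter.le_liminf_of_le (by isBoundedDefault) ?_
  filter_upwards [Filter.eventually_ge_atTop (max k 1)] with n hn
  have hk : k ≤ n := (le_max_left _ _).trans hn
  have hn0 : (n : ENNReal) ≠ 0 := by
    have : 1 ≤ n := (le_max_right _ _).trans hn
    exact_mod_cast (by omega : n ≠ 0)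
  have hb0 : (b : ENNReal) ≠ 0 := by exact_mod_cast hb.ne'
  rw [ENNReal.le_div_iff_mul_le (Or.inl hn0) (Or.inl (ENNReal.natCast_ne_top n))]
  rcases eq_or_ne (K A (seg X n)) ⊤ with htop | htop
  · rw [htop]; simp
  obtain ⟨N, hN⟩ := ENat.ne_top_iff_exists.1 htop
  rw [← hN]
  have hex : ∃ p, seg X n ∈ optMachine A p ∧ p.length ≤ N := by
    by_contra hne
    push Not at hne
    have : ((N + 1 : ℕ) : ℕ∞) ≤ K A (seg X n) := le_K fun p hp => by
      exact_mod_cast hne p hp
    rw [← hN] at this
    have : N + 1 ≤ N := by exact_mod_cast this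
    omega
  obtain ⟨p, hp, hpN⟩ := hex
  have := h n hk p hp
  rw [← ENNReal.mul_div_right_comm]
  refine ENNReal.div_le_of_le_mul ?_
  have h2 : a * n ≤ N * b := this.trans (Nat.mul_le_mul_right b hpN)
  have h3 : ((a * n : ℕ) : ENNReal) ≤ ((N * b : ℕ) : ENNReal) := by exact_mod_cast h2
  push_cast at h3
  simpa using h3

/-- conversely, if the dimension is greater than `a / b`, then every program for `X ↾ n` has
length at least `(a / b) n` for all large `n` -/
theorem exists_of_lt_effDim {A X : ℕ → Bool} {a b : ℕ} (hb : 0 < b)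
    (h : (a : ENNReal) / b < effDim A X) :
    ∃ k, ∀ n, k ≤ n → ∀ p, seg X n ∈ optMachine A p → a * n ≤ p.length * b := by
  have h1 := Filter.eventually_lt_of_lt_liminf h (by isBoundedDefault)
  obtain ⟨k, hk⟩ := Filter.eventually_atTop.1 h1
  refine ⟨max k 1, fun n hn p hp => ?_⟩
  have h2 := hk n ((le_max_left _ _).trans hn)
  have hn0 : (n : ENNReal) ≠ 0 := by
    have : 1 ≤ n := (le_max_right _ _).trans hn
    exact_mod_cast (by omega : n ≠ 0)
  have hb0 : (b : ENNReal) ≠ 0 := by exact_mod_cast hb.ne'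
  have h3 : ((K A (seg X n) : ℕ∞) : ENNReal) ≤ (p.length : ENNReal) := by
    have := K_le hp
    calc ((K A (seg X n) : ℕ∞) : ENNReal) ≤ ((p.length : ℕ∞) : ENNReal) := by exact_mod_cast this
      _ = _ := by simp
  have h4 : (a : ENNReal) / b < (p.length : ENNReal) / n :=
    lt_of_lt_of_le h2 (ENNReal.div_le_div_right h3 _)
  rw [ENNReal.lt_div_iff_mul_lt (Or.inl hn0) (Or.inl (ENNReal.natCast_ne_top n)),
    ← ENNReal.mul_div_right_comm, ENNReal.div_lt_iff (Or.inl hb0) (Or.inl (ENNReal.natCast_ne_top b))] at h4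
  have h5 : ((a * n : ℕ) : ENNReal) < ((p.length * b : ℕ) : ENNReal) := by
    push_cast
    exact h4
  exact (by exact_mod_cast h5 : a * n < p.length * b).le

end Pool.Agent.MP_33dedf_lc
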