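import Pool.Agent.MP_33dedf_lc.Machine

/-!
Prefix-free Kolmogorov complexity and effective dimension relative to an oracle.
-/

set_option autoImplicit false

namespace Pool.Agent.MP_33dedf_lc

/-- There is an optimal prefix-free machine with oracle `A`. -/
theorem exists_isOptimal (A : ℕ → Bool) : ∃ U, IsOptimal A U := ⟨_, isOptimal_univ A⟩

/-- A fixed optimal prefix-free machine with oracle `A`. -/
noncomputable def optMachine (A : ℕ → Bool) : List Bool →. List Bool :=
  Classical.choose (exists_isOptimal A)

theorem optMachine_isOptimal (A : ℕ → Bool) : IsOptimal A (optMachine A) :=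
  Classical.choose_spec (exists_isOptimal A)

/-- The prefix-free Kolmogorov complexity of the string `v` relative to the oracle `A`. -/
noncomputable def K (A : ℕ → Bool) (v : List Bool) : ℕ∞ := KM (optMachine A) v

/-- The effective (constructive Hausdorff) dimension of `X` relative to `A`:
`dim^A(X) = liminf K^A(X ↾ n) / n`. -/
noncomputable def effDim (A X : ℕ → Bool) : ENNReal :=
  Filter.liminf (fun n : ℕ => ((K A (seg X n) : ℕ∞) : ENNReal) / (n : ENNReal)) Filter.atTop

/-- The empty oracle. -/
def emptySeq : ℕ → Bool := fun _ => false

/-- The halting problem `0'`. -/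
noncomputable def zeroJump : ℕ → Bool := jump emptySeq

end Pool.Agent.MP_33dedf_lc
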