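import Pool.Agent.MP_33dedf_lc.Use

/-!
The Turing jump of a sequence.
-/

set_option autoImplicit false

namespace Pool.Agent.MP_33dedf_lc

open Encodable
open Nat.Partrec (Code)

theorem jump_iff (A : ℕ → Bool) (e : ℕ) : jump A e = true ↔
    ∃ n, ((Denumerable.ofNat Code e).eval (Nat.pair (encode (seg A n)) e)).Dom := by
  simp [jump]

/-- Every `Σ⁰₁(X)` condition is uniformly reducible to the jump of `X`. -/
theorem exists_reduction {α β : Type*} [Primcodable α] [Primcodable β]
    {g : α → List Bool →. β} (hg : Partrec₂ g) :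
    ∃ c : α → ℕ, Computable c ∧ ∀ (X : ℕ → Bool) (a : α),
      jump X (c a) = true ↔ ∃ ℓ, (g a (seg X ℓ)).Dom := by
  have h1 : Partrec (fun m : ℕ => ((decode (α := α) m.unpair.1 : Option α) : Part α).bind
      fun a => ((decode (α := List Bool) m.unpair.2.unpair.1 : Option (List Bool)) :
        Part (List Bool)).bind fun σ => (g a σ).map encode) := by
    refine Partrec.bind (f := fun m : ℕ => ((decode (α := α) m.unpair.1 : Option α) : Part α))
      (Computable.ofOption (Computable.decode.comp (Computable.fst.comp Computable.unpair))) ?_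
    refine Partrec.bind (f := fun p : ℕ × α =>
      ((decode (α := List Bool) p.1.unpair.2.unpair.1 : Option (List Bool)) :
        Part (List Bool))) (Computable.ofOption ?_) ?_
    · exact Computable.decode.comp (Computable.fst.comp (Computable.unpair.comp
        (Computable.snd.comp (Computable.unpair.comp Computable.fst))))
    · refine Partrec.map (f := fun q : (ℕ × α) × List Bool => g q.1.2 q.2)
        (hg.comp (Computable.snd.comp Computable.fst) Computable.snd) ?_
      exact (Computable.encode.comp Computable.snd).to₂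
  obtain ⟨c0, hc0⟩ := Code.exists_code.1 (Partrec.nat_iff.1 h1)
  refine ⟨fun a => encode (Code.curry c0 (encode a)), ?_, fun X a => ?_⟩
  · exact Computable.encode.comp
      (Code.primrec₂_curry.to_comp.comp (Computable.const c0) Computable.encode)
  · rw [jump_iff]
    have : ∀ n, ((Denumerable.ofNat Code (encode (Code.curry c0 (encode a)))).eval
        (Nat.pair (encode (seg X n)) (encode (Code.curry c0 (encode a))))) =
        (g a (seg X n)).map encode := by
      intro n
      rw [Denumerable.ofNat_encode, Code.eval_curry, hc0]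
      simp
    simp only [this, Part.map_Dom]

/-- The jump of `A` is recursively enumerable in `A`. -/
theorem jump_re (A : ℕ → Bool) : ∃ f : ℕ →. ℕ, Nat.RecursiveIn {chi A} f ∧
    ∀ e, (f e).Dom ↔ jump A e = true := by
  let g : List Bool → ℕ → Option ℕ := fun σ e =>
    Code.evaln σ.length.unpair.2 (Denumerable.ofNat Code e)
      (Nat.pair (encode (σ.take σ.length.unpair.1)) e)
  have hg : Computable₂ g := by
    have hlen : Primrec (fun p : List Bool × ℕ => p.1.length.unpair) :=
      Primrec.unpair.comp (Primrec.list_length.comp Primrec.fst)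
    refine (Code.primrec_evaln.comp ((((Primrec.snd.comp hlen).pair
      ((Primrec.ofNat Code).comp Primrec.snd))).pair ?_)).to_comp
    exact Primrec₂.natPair.comp (Primrec.encode.comp (Primrec.list_take.comp
      (Primrec.fst.comp hlen) Primrec.fst)) Primrec.snd
  refine ⟨fun e => Nat.rfindOpt fun t => g (seg A t) e, ?_, fun e => ?_⟩
  · exact RecursiveIn.iff_nat.1 (RecursiveIn_rfindOpt (ComputableIn_chi A) hg)
  · rw [jump_iff, Nat.rfindOpt_dom]
    constructor
    · rintro ⟨t, x, hx⟩
      simp only [g, seg_length] at hx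
      rw [seg_take A (Nat.unpair_left_le t)] at hx
      exact ⟨_, (Part.dom_iff_mem.2 ⟨x, Code.evaln_sound hx⟩)⟩
    · rintro ⟨n, hn⟩
      obtain ⟨x, hx⟩ := Part.dom_iff_mem.1 hn
      obtain ⟨k, hk⟩ := Code.evaln_complete.1 hx
      refine ⟨Nat.pair n k, x, ?_⟩
      simp only [g, seg_length, Nat.unpair_pair]
      rw [seg_take A (Nat.left_le_pair n k)]
      exact hk

/-- The jump of `A` is complete among the sets recursively enumerable in `A`. -/
theorem jump_complete (A : ℕ → Bool) {f : ℕ →. ℕ} (hf : Nat.RecursiveIn {chi A} f) :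
    ∃ c : ℕ → ℕ, Computable c ∧ ∀ n, (f n).Dom ↔ jump A (c n) = true := by
  obtain ⟨c0, hc0⟩ := exists_code_of_recursiveIn hf
  have hg : Partrec₂ (fun (n : ℕ) (σ : List Bool) => c0.eval (Nat.pair (encode σ) n)) := by
    refine Code.eval_part.comp (Computable.const c0) ?_
    exact Primrec₂.natPair.to_comp.comp (Computable.encode.comp Computable.snd) Computable.fst
  obtain ⟨c, hc, h⟩ := exists_reduction hg
  refine ⟨c, hc, fun n => ?_⟩
  rw [h A n, Part.dom_iff_mem]
  constructor
  · rintro ⟨y, hy⟩
    obtain ⟨ℓ, hℓ⟩ := (hc0 n y).1 hy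
    exact ⟨ℓ, Part.dom_iff_mem.2 ⟨y, hℓ⟩⟩
  · rintro ⟨ℓ, hℓ⟩
    obtain ⟨y, hy⟩ := Part.dom_iff_mem.1 hℓ
    exact ⟨y, (hc0 n y).2 ⟨ℓ, hy⟩⟩

end Pool.Agent.MP_33dedf_lc
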