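import Pool.Agent.MP_33dedf_lc.Jump

/-!
Prefix-free machines with oracle, and the existence of an optimal one.
-/

set_option autoImplicit false

namespace Pool.Agent.MP_33dedf_lc

open Encodable
open Nat.Partrec (Code)

/-! ### Construction of an optimal machine -/

/-- stage `j` of the `e`-th machine, with finite oracle `σ` -/
def stage (σ : List Bool) (e j : ℕ) : Option ℕ :=
  Code.evaln j.unpair.2.unpair.2 (Denumerable.ofNat Code e)
    (Nat.pair (encode (σ.take j.unpair.2.unpair.1)) j.unpair.1)

theorem primrec_stage : Primrec (fun q : (List Bool × ℕ) × ℕ => stage q.1.1 q.1.2 q.2) := by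
  have h2 : Primrec (fun q : (List Bool × ℕ) × ℕ => q.2.unpair.2.unpair) :=
    Primrec.unpair.comp (Primrec.snd.comp (Primrec.unpair.comp Primrec.snd))
  refine Code.primrec_evaln.comp (((Primrec.snd.comp h2).pair
    ((Primrec.ofNat Code).comp (Primrec.snd.comp Primrec.fst))).pair ?_)
  exact Primrec₂.natPair.comp (Primrec.encode.comp (Primrec.list_take.comp
    (Primrec.fst.comp h2) (Primrec.fst.comp Primrec.fst)))
    (Primrec.fst.comp (Primrec.unpair.comp Primrec.snd))

/-- the number `z` codes a string comparable with and different from `p` -/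
def conflict (z : ℕ) (p : List Bool) : Prop :=
  ∃ r : List Bool, decode z = some r ∧ r ≠ p ∧ (r = p.take r.length ∨ p = r.take p.length)

theorem primrec_conflict : PrimrecRel conflict := by
  classical
  have h : PrimrecPred (fun q : List Bool × List Bool =>
      q.1 ≠ q.2 ∧ (q.1 = q.2.take q.1.length ∨ q.2 = q.1.take q.2.length)) := by
    refine PrimrecPred.and (PrimrecPred.not (Primrec.eq.comp Primrec.fst Primrec.snd))
      (PrimrecPred.or ?_ ?_)
    · exact Primrec.eq.comp Primrec.fst (Primrec.list_take.comp
        (Primrec.list_length.comp Primrec.fst) Primrec.snd)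
    · exact Primrec.eq.comp Primrec.snd (Primrec.list_take.comp
        (Primrec.list_length.comp Primrec.snd) Primrec.fst)
  have h2 : Primrec (fun q : ℕ × List Bool =>
      ((decode (α := List Bool) q.1).map (fun r => decide
        (r ≠ q.2 ∧ (r = q.2.take r.length ∨ q.2 = r.take q.2.length)))).getD false) := by
    refine Primrec.option_getD.comp (Primrec.option_map (Primrec.decode.comp Primrec.fst) ?_)
      (Primrec.const false)
    exact h.decide.comp (Primrec.snd.pair (Primrec.snd.comp Primrec.fst))
  refine PrimrecPred.of_eq (p := fun q : ℕ × List Bool => ((decode (α := List Bool) q.1).map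
    (fun r => decide
        (r ≠ q.2 ∧ (r = q.2.take r.length ∨ q.2 = r.take q.2.length)))).getD false = true)
    (Primrec.eq.comp h2 (Primrec.const true)) ?_
  rintro ⟨z, p⟩
  unfold conflict
  cases decode (α := List Bool) z with
  | none => simp
  | some r => simp

/-- the first stage at which the program is accepted -/
def accept (σ : List Bool) (e : ℕ) (p : List Bool) : Prop :=
  σ.length.unpair.1 = encode p ∧
    ∀ j < σ.length, conflict j.unpair.1 p → stage σ e j = none

theorem primrec_accept :
    PrimrecPred (fun q : (List Bool × ℕ) × List Bool => accept q.1.1 q.1.2 q.2) := by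
  classical
  refine PrimrecPred.and (Primrec.eq.comp
    (Primrec.fst.comp (Primrec.unpair.comp (Primrec.list_length.comp
      (Primrec.fst.comp Primrec.fst)))) (Primrec.encode.comp Primrec.snd)) ?_
  have hR : PrimrecRel (fun (j : ℕ) (q : (List Bool × ℕ) × List Bool) =>
      ¬ conflict j.unpair.1 q.2 ∨ stage q.1.1 q.1.2 j = none) := by
    refine PrimrecPred.or (PrimrecPred.not (primrec_conflict.comp
      (Primrec.fst.comp (Primrec.unpair.comp Primrec.fst)) (Primrec.snd.comp Primrec.snd))) ?_
    exact Primrec.eq.comp (primrec_stage.comp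
      ((Primrec.fst.comp Primrec.snd).pair Primrec.fst)) (Primrec.const none)
  refine ((PrimrecRel.forall_mem_list hR).comp
    (Primrec.list_range.comp (Primrec.list_length.comp (Primrec.fst.comp Primrec.fst)))
    Primrec.id).of_eq ?_
  rintro ⟨⟨σ, e⟩, p⟩
  simp only [List.mem_range, id]
  exact forall₂_congr fun j _ => imp_iff_not_or.symm

open Classical in
/-- the finite approximation of the universal machine -/
noncomputable def appr (σ q : List Bool) : Option (List Bool) :=
  if q.findIdx id < q.length ∧ accept σ (q.findIdx id) (q.drop (q.findIdx id + 1)) then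
    (stage σ (q.findIdx id) σ.length).bind decode else none

theorem computable_appr : Computable₂ appr := by
  classical
  have hidx : Primrec (fun x : List Bool × List Bool => x.2.findIdx id) :=
    Primrec.list_findIdx (f := fun x : List Bool × List Bool => x.2)
      (p := fun (_ : List Bool × List Bool) (b : Bool) => b) Primrec.snd Primrec.snd
  have hrest : Primrec (fun x : List Bool × List Bool => x.2.drop (x.2.findIdx id + 1)) :=
    Primrec.list_drop.comp (Primrec.succ.comp hidx) Primrec.snd
  refine Primrec.to_comp (Primrec.ite (PrimrecPred.and (Primrec.nat_lt.comp hidx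
    (Primrec.list_length.comp Primrec.snd)) (primrec_accept.comp
      ((Primrec.fst.pair hidx).pair hrest))) ?_ (Primrec.const none))
  refine Primrec.option_bind (primrec_stage.comp ((Primrec.fst.pair hidx).pair
    (Primrec.list_length.comp Primrec.fst))) ?_
  exact (Primrec.decode.comp Primrec.snd)

/-- the universal machine with oracle `A` -/
noncomputable def univ (A : ℕ → Bool) : List Bool →. List Bool := fun q =>
  Nat.rfindOpt fun t => appr (seg A t) q

theorem univ_recursive (A : ℕ → Bool) : RecursiveIn {chi A} (univ A) :=
  RecursiveIn_rfindOpt (ComputableIn_chi A) computable_appr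

theorem stage_seg (A : ℕ → Bool) (e j t : ℕ) (h : j ≤ t) :
    stage (seg A t) e j = stage (seg A j) e j := by
  unfold stage
  have h1 : j.unpair.2.unpair.1 ≤ j := (Nat.unpair_left_le _).trans (Nat.unpair_right_le _)
  rw [seg_take A (h1.trans h), seg_take A h1]

/-- the program `replicate e false ++ true :: p` -/
def prog (e : ℕ) (p : List Bool) : List Bool := List.replicate e false ++ true :: p

theorem prog_findIdx (e : ℕ) (p : List Bool) : (prog e p).findIdx id = e := by
  unfold prog
  induction e with
  | zero => simp [List.findIdx_cons]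
  | succ e ih => simp [List.replicate_succ, List.findIdx_cons, ih]

theorem prog_drop (e : ℕ) (p : List Bool) : (prog e p).drop (e + 1) = p := by
  unfold prog
  induction e with
  | zero => simp
  | succ e ih => simp [List.replicate_succ, ih]

theorem prog_length (e : ℕ) (p : List Bool) : (prog e p).length = e + 1 + p.length := by
  simp [prog]; omega

theorem eq_prog {q : List Bool} (h : q.findIdx id < q.length) :
    q = prog (q.findIdx id) (q.drop (q.findIdx id + 1)) := by
  induction q with
  | nil => simp at h
  | cons b q ih =>
    cases b with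
    | true => simp [prog, List.findIdx_cons]
    | false =>
      simp only [List.findIdx_cons, id, cond_false, List.length_cons] at h ⊢
      have := ih (by omega)
      conv_lhs => rw [this]
      simp [prog, List.replicate_succ]

theorem univ_dom_iff (A : ℕ → Bool) (q : List Bool) : (univ A q).Dom ↔
    q.findIdx id < q.length ∧ ∃ t, accept (seg A t) (q.findIdx id) (q.drop (q.findIdx id + 1)) ∧
      ∃ v : List Bool, (stage (seg A t) (q.findIdx id) t).bind decode = some v := by
  classical
  unfold univ
  rw [Nat.rfindOpt_dom]
  constructor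
  · rintro ⟨t, v, hv⟩
    unfold appr at hv
    split_ifs at hv with h
    · refine ⟨h.1, t, h.2, v, ?_⟩
      simpa using hv
    · simp at hv
  · rintro ⟨h1, t, h2, v, hv⟩
    refine ⟨t, v, ?_⟩
    unfold appr
    rw [if_pos ⟨h1, h2⟩]
    simpa using hv

theorem mem_univ (A : ℕ → Bool) {q v : List Bool} (h : v ∈ univ A q) :
    ∃ t, accept (seg A t) (q.findIdx id) (q.drop (q.findIdx id + 1)) ∧
      (stage (seg A t) (q.findIdx id) t).bind decode = some v := by
  classical
  obtain ⟨t, hv⟩ := Nat.rfindOpt_spec h
  unfold appr at hv
  split_ifs at hv with h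
  · exact ⟨t, h.2, by simpa using hv⟩
  · simp at hv

theorem prefixFree_univ (A : ℕ → Bool) : PrefixFree (univ A) := by
  -- it suffices to treat two programs of the same machine, with comparable and distinct ends
  have key : ∀ (e : ℕ) (p p' : List Bool), p <+: p' → p ≠ p' →
      ∀ t t', accept (seg A t) e p → accept (seg A t') e p' →
      (stage (seg A t) e t ≠ none) → (stage (seg A t') e t' ≠ none) → False := by
    intro e p p' hpp hne t t' h h' ht ht'
    have e1 : t.unpair.1 = encode p := by simpa using h.1
    have e2 : t'.unpair.1 = encode p' := by simpa using h'.1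
    have htt : t ≠ t' := by
      rintro rfl
      exact hne (encode_injective (e1.symm.trans e2))
    rcases lt_or_gt_of_ne htt with hlt | hlt
    · have := h'.2 t (by simpa using hlt) ⟨p, by rw [e1, encodek], hne,
        Or.inl (List.prefix_iff_eq_take.1 hpp)⟩
      rw [stage_seg A e t t' hlt.le] at this
      exact ht this
    · have := h.2 t' (by simpa using hlt) ⟨p', by rw [e2, encodek], hne.symm,
        Or.inr (List.prefix_iff_eq_take.1 hpp)⟩
      rw [stage_seg A e t' t hlt.le] at this
      exact ht' this
  intro q q' hq hq' hqq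
  rw [univ_dom_iff] at hq hq'
  obtain ⟨h1, t, h2, v, hv⟩ := hq
  obtain ⟨h1', t', h2', v', hv'⟩ := hq'
  by_contra hne
  have hidx : q'.findIdx id = q.findIdx id := by
    obtain ⟨r, rfl⟩ := hqq
    rw [List.findIdx_append, if_pos h1]
  rw [hidx] at h2' hv'
  obtain ⟨r, rfl⟩ := hqq
  refine key (q.findIdx id) (q.drop (q.findIdx id + 1)) ((q ++ r).drop (q.findIdx id + 1))
    ?_ ?_ t t' h2 h2' ?_ ?_
  · rw [List.drop_append_of_le_length (by omega)]
    exact List.prefix_append _ _
  · rw [List.drop_append_of_le_length (by omega)]
    intro h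
    have : r = [] := by
      have := congrArg List.length h
      simp only [List.length_append] at this
      exact List.length_eq_zero_iff.1 (by omega)
    exact hne (by simp [this])
  · intro h
    rw [h] at hv
    simp at hv
  · intro h
    rw [h] at hv'
    simp at hv'

theorem univ_simulates (A : ℕ → Bool) {M : List Bool →. List Bool} (hM : IsPrefixMachine A M) :
    ∃ e : ℕ, ∀ p v, v ∈ M p → v ∈ univ A (prog e p) := by
  classical
  have hrec := hM.recursive
  unfold RecursiveIn at hrec
  obtain ⟨c, hc⟩ := exists_code_of_recursiveIn hrec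
  refine ⟨encode c, fun p v hv => ?_⟩
  have hstage : ∀ t z x, t.unpair.1 = z → stage (seg A t) (encode c) t = some x →
      x ∈ (((decode (α := List Bool) z : Option (List Bool)) : Part (List Bool)).bind
        fun a => (M a).map encode) := by
    intro t z x hz hx
    unfold stage at hx
    rw [Denumerable.ofNat_encode, seg_take A
      ((Nat.unpair_left_le _).trans (Nat.unpair_right_le _)), hz] at hx
    exact (hc z x).2 ⟨_, Code.evaln_sound hx⟩
  have h0 : encode v ∈ (((decode (α := List Bool) (encode p) : Option (List Bool)) :
      Part (List Bool)).bind fun a => (M a).map encode) := by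
    rw [encodek]
    simp only [Part.coe_some, Part.bind_some]
    exact Part.mem_map _ hv
  obtain ⟨ℓ, hℓ⟩ := (hc _ _).1 h0
  obtain ⟨k, hk⟩ := Code.evaln_complete.1 hℓ
  set i := Nat.pair (encode p) (Nat.pair ℓ k) with hi
  have hst : stage (seg A i) (encode c) i = some (encode v) := by
    unfold stage
    rw [Denumerable.ofNat_encode, seg_take A
      ((Nat.unpair_left_le _).trans (Nat.unpair_right_le _)), hi]
    simp only [Nat.unpair_pair]
    exact hk
  have hacc : accept (seg A i) (encode c) p := by
    refine ⟨by simp [hi], fun j hj hconf => ?_⟩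
    obtain ⟨r, hr, hrp, hcmp⟩ := hconf
    rw [seg_length] at hj
    rw [stage_seg A _ j i hj.le]
    by_contra hne
    obtain ⟨x, hx⟩ := Option.ne_none_iff_exists'.1 hne
    have := hstage j _ x rfl hx
    rw [hr] at this
    simp only [Part.coe_some, Part.bind_some, Part.mem_map_iff] at this
    obtain ⟨w, hw, -⟩ := this
    have hrd : (M r).Dom := Part.dom_iff_mem.2 ⟨w, hw⟩
    have hpd : (M p).Dom := Part.dom_iff_mem.2 ⟨v, hv⟩
    rcases hcmp with h | h
    · exact hrp (hM.free r p hrd hpd (List.prefix_iff_eq_take.2 h))
    · exact hrp (hM.free p r hpd hrd (List.prefix_iff_eq_take.2 h)).symm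
  have hidx := prog_findIdx (encode c) p
  have hdrop := prog_drop (encode c) p
  have hdom : (univ A (prog (encode c) p)).Dom := by
    rw [univ_dom_iff, hidx, hdrop]
    refine ⟨by rw [prog_length]; omega, i, hacc, v, ?_⟩
    rw [hst]
    simp
  obtain ⟨v', hv'⟩ := Part.dom_iff_mem.1 hdom
  obtain ⟨t, ht, hs⟩ := mem_univ A hv'
  rw [hidx, hdrop] at ht
  rw [hidx] at hs
  obtain ⟨x, hx, hxv⟩ := Option.bind_eq_some_iff.1 hs
  have e1 : t.unpair.1 = encode p := by simpa using ht.1
  have h3 := hstage t _ x e1 hx
  rw [encodek] at h3
  simp only [Part.coe_some, Part.bind_some, Part.mem_map_iff] at h3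
  obtain ⟨w, hw, hwx⟩ := h3
  have hwv : w = v := Part.mem_unique hw hv
  rw [← hwx, encodek] at hxv
  have : v' = v := by rw [← hwv]; exact (Option.some.inj hxv).symm
  rw [← this]
  exact hv'

theorem isOptimal_univ (A : ℕ → Bool) : IsOptimal A (univ A) := by
  refine ⟨⟨univ_recursive A, prefixFree_univ A⟩, fun M hM => ?_⟩
  obtain ⟨e, he⟩ := univ_simulates A hM
  refine ⟨e + 1, fun v => ?_⟩
  unfold KM
  rw [ENat.iInf_add]
  refine le_iInf fun p => ?_
  by_cases hp : v ∈ M p
  · rw [iInf_pos hp]
    refine (iInf₂_le (prog e p) (he p v hp)).trans ?_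
    rw [prog_length]
    push_cast
    rw [add_comm]
  · rw [iInf_neg hp]
    simp

end Pool.Agent.MP_33dedf_lc
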