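import Pool.Agent.MP_33dedf_lc.Content
import Pool.Agent.MP_33dedf_lc.Machine

/-!
The Kraft inequality and the content of the set of compressible strings.
-/

set_option autoImplicit false

namespace Pool.Agent.MP_33dedf_lc

/-- the gauge belonging to the slopes `s` -/
def cf (s : ℕ → Bool) (n : ℕ) : ℕ := Nat.count (fun i => s i = true) n

@[simp] theorem cf_zero (s : ℕ → Bool) : cf s 0 = 0 := by simp [cf]

theorem cf_succ (s : ℕ → Bool) (n : ℕ) :
    cf s (n + 1) = cf s n + if s n = true then 1 else 0 := by
  simp [cf, Nat.count_succ]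

theorem cf_true (n : ℕ) : cf (fun _ => true) n = n := by
  induction n with
  | zero => simp
  | succ n ih => rw [cf_succ, ih]; simp

open Classical in
/-- weighted sum over the elements of `F` extending `v` -/
noncomputable def wsum (s : ℕ → Bool) (F : Finset (List Bool)) (v : List Bool) : ℝ :=
  ∑ w ∈ F.filter (fun w => v <+: w), 2 ^ cf s v.length * (1 / 2 : ℝ) ^ cf s w.length

theorem wsum_nonneg (s : ℕ → Bool) (F : Finset (List Bool)) (v : List Bool) :
    0 ≤ wsum s F v := by
  classical
  exact Finset.sum_nonneg fun w _ => by positivity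

theorem one_le_wsum {s : ℕ → Bool} {F : Finset (List Bool)} {v : List Bool} (h : v ∈ F) :
    1 ≤ wsum s F v := by
  classical
  unfold wsum
  have hv : v ∈ F.filter (fun w => v <+: w) := Finset.mem_filter.2 ⟨h, List.prefix_refl v⟩
  have h1 := Finset.single_le_sum (f := fun w : List Bool =>
    (2 : ℝ) ^ cf s v.length * (1 / 2 : ℝ) ^ cf s w.length)
    (fun w _ => by positivity) hv
  refine le_trans (le_of_eq ?_) h1
  rw [← mul_pow]
  norm_num

theorem prefix_snoc {v w : List Bool} (b : Bool) (h : v ++ [b] <+: w) : v <+: w :=
  (List.prefix_append _ _).trans h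

theorem prefix_cases {v w : List Bool} (h : v <+: w) :
    w = v ∨ v ++ [false] <+: w ∨ v ++ [true] <+: w := by
  obtain ⟨r, rfl⟩ := h
  cases r with
  | nil => left; simp
  | cons b r =>
    right
    cases b
    · left; exact ⟨r, by simp⟩
    · right; exact ⟨r, by simp⟩

theorem not_both {v w : List Bool} (h0 : v ++ [false] <+: w) (h1 : v ++ [true] <+: w) : False := by
  obtain ⟨r, rfl⟩ := h0
  obtain ⟨r', h⟩ := h1
  simp at h

theorem wsum_split_le (s : ℕ → Bool) (F : Finset (List Bool)) (v : List Bool) :
    (2 : ℝ) ^ cf s v.length * ((1 / 2) ^ cf s (v.length + 1) *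
      (wsum s F (v ++ [false]) + wsum s F (v ++ [true]))) ≤ wsum s F v := by
  classical
  unfold wsum
  simp only [List.length_append, List.length_cons, List.length_nil, zero_add]
  rw [← Finset.sum_union, Finset.mul_sum, Finset.mul_sum]
  · refine le_trans (le_of_eq (Finset.sum_congr rfl fun w _ => ?_))
      (Finset.sum_le_sum_of_subset_of_nonneg
        (f := fun w : List Bool => (2 : ℝ) ^ cf s v.length * (1 / 2 : ℝ) ^ cf s w.length) ?_ ?_)
    · rw [← mul_assoc ((1 / 2 : ℝ) ^ cf s (v.length + 1)), ← mul_pow]
      norm_num
    · intro w hw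
      rw [Finset.mem_union, Finset.mem_filter, Finset.mem_filter] at hw
      rw [Finset.mem_filter]
      rcases hw with hw | hw
      · exact ⟨hw.1, prefix_snoc _ hw.2⟩
      · exact ⟨hw.1, prefix_snoc _ hw.2⟩
    · intro w _ _
      positivity
  · rw [Finset.disjoint_left]
    intro w h0 h1
    exact not_both (Finset.mem_filter.1 h0).2 (Finset.mem_filter.1 h1).2

theorem con_le_wsum {s : ℕ → Bool} {V : Set (List Bool)} {F : Finset (List Bool)} {k : ℕ}
    {v : List Bool} (h : ∀ w ∈ V, v <+: w → w.length ≤ v.length + k → w ∈ F) :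
    con s V k v ≤ wsum s F v := by
  induction k generalizing v with
  | zero =>
    by_cases hv : v ∈ V
    · rw [con_mem hv]
      exact one_le_wsum (h v hv (List.prefix_refl _) (by simp))
    · rw [con_zero_not_mem hv]
      exact wsum_nonneg _ _ _
  | succ k ih =>
    by_cases hv : v ∈ V
    · rw [con_mem hv]
      exact one_le_wsum (h v hv (List.prefix_refl _) (by omega))
    have h0 := ih (v := v ++ [false]) (fun w hw hp hl => h w hw (prefix_snoc _ hp)
      (by simp at hl; omega))
    have h1 := ih (v := v ++ [true]) (fun w hw hp hl => h w hw (prefix_snoc _ hp)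
      (by simp at hl; omega))
    refine le_trans ?_ (wsum_split_le s F v)
    have hn0 := wsum_nonneg s F (v ++ [false])
    have hn1 := wsum_nonneg s F (v ++ [true])
    cases e : s v.length with
    | true =>
      rw [con_succ_true hv e, cf_succ, if_pos e, pow_succ, ← mul_assoc, ← mul_assoc, ← mul_pow]
      norm_num
      linarith
    | false =>
      rw [con_succ_false hv e, cf_succ, if_neg (by simp [e]), add_zero, ← mul_assoc, ← mul_pow]
      norm_num
      right
      linarith

/-- Kraft's inequality below `v` -/
theorem kraft_aux {F : Finset (List Bool)}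
    (hF : ∀ p ∈ F, ∀ q ∈ F, p <+: q → p = q) (k : ℕ) (v : List Bool)
    (hk : ∀ w ∈ F, v <+: w → w.length ≤ v.length + k) : wsum (fun _ => true) F v ≤ 1 := by
  classical
  induction k generalizing v with
  | zero =>
    unfold wsum
    have hsub : F.filter (fun w => v <+: w) ⊆ {v} := by
      intro w hw
      rw [Finset.mem_filter] at hw
      have := hk w hw.1 hw.2
      rw [Finset.mem_singleton]
      exact (hw.2.eq_of_length (le_antisymm hw.2.length_le (by simpa using this))).symm
    refine (Finset.sum_le_sum_of_subset_of_nonneg hsub (fun w _ _ => by positivity)).trans ?_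
    rw [Finset.sum_singleton, ← mul_pow]
    norm_num
  | succ k ih =>
    by_cases hv : v ∈ F
    · unfold wsum
      have hsub : F.filter (fun w => v <+: w) ⊆ {v} := by
        intro w hw
        rw [Finset.mem_filter] at hw
        rw [Finset.mem_singleton]
        exact (hF v hv w hw.1 hw.2).symm
      refine (Finset.sum_le_sum_of_subset_of_nonneg hsub (fun w _ _ => by positivity)).trans ?_
      rw [Finset.sum_singleton, ← mul_pow]
      norm_num
    · have h0 := ih (v ++ [false]) (fun w hw hp => by
        have := hk w hw (prefix_snoc _ hp); simp; omega)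
      have h1 := ih (v ++ [true]) (fun w hw hp => by
        have := hk w hw (prefix_snoc _ hp); simp; omega)
      have hsplit : wsum (fun _ => true) F v = (1 / 2) *
          (wsum (fun _ => true) F (v ++ [false]) + wsum (fun _ => true) F (v ++ [true])) := by
        have : F.filter (fun w => v <+: w) = F.filter (fun w => v ++ [false] <+: w) ∪
            F.filter (fun w => v ++ [true] <+: w) := by
          ext w
          simp only [Finset.mem_union, Finset.mem_filter]
          constructor
          · rintro ⟨hw, hp⟩
            rcases prefix_cases hp with rfl | h | h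
            · exact absurd hw hv
            · exact Or.inl ⟨hw, h⟩
            · exact Or.inr ⟨hw, h⟩
          · rintro (⟨hw, hp⟩ | ⟨hw, hp⟩)
            · exact ⟨hw, prefix_snoc _ hp⟩
            · exact ⟨hw, prefix_snoc _ hp⟩
        unfold wsum
        rw [this, Finset.sum_union, mul_add, Finset.mul_sum, Finset.mul_sum]
        · congr 1 <;> refine Finset.sum_congr rfl fun w _ => ?_ <;>
          · simp only [cf_true, List.length_append, List.length_cons, List.length_nil, zero_add,
              pow_succ]
            ring
        · rw [Finset.disjoint_left]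
          intro w h0 h1
          exact not_both (Finset.mem_filter.1 h0).2 (Finset.mem_filter.1 h1).2
      rw [hsplit]
      linarith

/-- **Kraft's inequality** -/
theorem kraft {F : Finset (List Bool)} (hF : ∀ p ∈ F, ∀ q ∈ F, p <+: q → p = q) :
    ∑ p ∈ F, (1 / 2 : ℝ) ^ p.length ≤ 1 := by
  classical
  have h := kraft_aux hF (F.sup List.length) [] (fun w hw _ => by
    have := Finset.le_sup (f := List.length) hw
    simpa using this)
  unfold wsum at h
  simpa [cf_true] using h

/-- The set of strings which are compressed by at least `d` bits, as compared with the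
gauge `cf s`, by a prefix-free machine, has content at most `2 ^ (-d)`. -/
theorem con_compressible {U : List Bool →. List Bool} (hU : PrefixFree U) (s : ℕ → Bool)
    (d k : ℕ) : con s {w | ∃ p, w ∈ U p ∧ p.length + d ≤ cf s w.length} k [] ≤ (1 / 2) ^ d := by
  classical
  have hfin : ({w : List Bool | w.length ≤ k} ∩
      {w | ∃ p, w ∈ U p ∧ p.length + d ≤ cf s w.length}).Finite :=
    (List.finite_length_le Bool k).inter_of_left _
  let F := hfin.toFinset
  have h1 : con s {w | ∃ p, w ∈ U p ∧ p.length + d ≤ cf s w.length} k [] ≤ wsum s F [] := by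
    refine con_le_wsum fun w hw _ hl => ?_
    rw [Set.Finite.mem_toFinset]
    exact ⟨by simpa using hl, hw⟩
  refine h1.trans ?_
  have hF : ∀ w ∈ F, ∃ p, w ∈ U p ∧ p.length + d ≤ cf s w.length := by
    intro w hw
    exact ((Set.Finite.mem_toFinset _).1 hw).2
  choose! p hp1 hp2 using hF
  have hinj : Set.InjOn p F := by
    intro w hw w' hw' e
    have := hp1 w' hw'
    rw [← e] at this
    exact Part.mem_unique (hp1 w hw) this
  have hpf : ∀ a ∈ F.image p, ∀ b ∈ F.image p, a <+: b → a = b := by
    intro a ha b hb hab
    obtain ⟨w, hw, rfl⟩ := Finset.mem_image.1 ha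
    obtain ⟨w', hw', rfl⟩ := Finset.mem_image.1 hb
    exact hU _ _ (Part.dom_iff_mem.2 ⟨_, hp1 w hw⟩) (Part.dom_iff_mem.2 ⟨_, hp1 w' hw'⟩) hab
  have hk := kraft hpf
  rw [Finset.sum_image hinj] at hk
  unfold wsum
  simp only [List.nil_prefix, Finset.filter_true, List.length_nil, cf_zero, pow_zero, one_mul]
  calc ∑ w ∈ F, (1 / 2 : ℝ) ^ cf s w.length ≤ ∑ w ∈ F, (1 / 2 : ℝ) ^ ((p w).length + d) :=
        Finset.sum_le_sum fun w hw =>
          pow_le_pow_of_le_one (by norm_num) (by norm_num) (hp2 w hw)
    _ = (1 / 2) ^ d * ∑ w ∈ F, (1 / 2 : ℝ) ^ (p w).length := by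
        rw [Finset.mul_sum]
        exact Finset.sum_congr rfl fun w _ => by rw [pow_add, mul_comm]
    _ ≤ (1 / 2) ^ d * 1 := by gcongr
    _ = (1 / 2) ^ d := mul_one _

end Pool.Agent.MP_33dedf_lc
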