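import Pool.Agent.MP_33dedf_lc.Kraft
import Pool.Agent.MP_33dedf_lc.Dim

/-!
The construction of a real number `s` and a sequence `Y`, random relative to the halting
problem, such that `Y` is computable from the jump of every sequence of dimension `s`.
-/

set_option autoImplicit false

namespace Pool.Agent.MP_33dedf_lc

open Encodable
open Nat.Partrec (Code)

/-! ### The greedy path -/

/-- the greedy path through the tree of strings passing the test `T` -/
def gpath (T : List Bool → Bool) : ℕ → List Bool
  | 0 => []
  | m + 1 => gpath T m ++ [T (gpath T m ++ [true])]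

theorem gpath_length (T : List Bool → Bool) (m : ℕ) : (gpath T m).length = m := by
  induction m with
  | zero => rfl
  | succ m ih => simp [gpath, ih]

/-- the value of a string in base four -/
def val4 (v : List Bool) : ℕ := v.foldl (fun a b => 4 * a + b.toNat) 0

theorem val4_snoc (v : List Bool) (b : Bool) : val4 (v ++ [b]) = 4 * val4 v + b.toNat := by
  simp [val4]

theorem gpath_compare {T T' : List Bool → Bool} (h : ∀ v, T' v = true → T v = true) (m : ℕ) :
    gpath T m = gpath T' m ∨ val4 (gpath T' m) + 1 ≤ val4 (gpath T m) := by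
  induction m with
  | zero => left; rfl
  | succ m ih =>
    rcases ih with ih | ih
    · simp only [gpath, val4_snoc]
      rw [ih]
      cases e : T (gpath T' m ++ [true]) with
      | true =>
        cases e' : T' (gpath T' m ++ [true]) with
        | true => left; rfl
        | false => right; simp
      | false =>
        cases e' : T' (gpath T' m ++ [true]) with
        | true =>
          rw [h _ e'] at e
          exact absurd e (by simp)
        | false => left; rfl
    · right
      simp only [gpath, val4_snoc]
      have : (T' (gpath T' m ++ [true])).toNat ≤ 1 := Bool.toNat_le _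
      omega

/-! ### The stages of the enumeration of the compressible strings -/

/-- the compressible string found at the `i`-th stage -/
def found (e : ℕ) (σ : List Bool) (i : ℕ) : Option (List Bool) :=
  (stage σ e i).bind fun x => (decode (α := List Bool) x).bind fun w =>
    (decode (α := List Bool) i.unpair.1).bind fun p =>
      if p.length + 2 ≤ w.length then some w else none

/-- the compressible strings found with the finite oracle `σ` -/
def badl (e : ℕ) (σ : List Bool) : List (List Bool) :=
  (List.range σ.length).filterMap (found e σ)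

/-- the test that the content of the compressible strings is at most `1 / 4` -/
def tst (e : ℕ) (σ v : List Bool) : Bool :=
  decide (4 * cnt (fun _ => true) (badl e σ) σ.length v ≤ 2 ^ σ.length)

theorem primrec_found (e : ℕ) : Primrec (fun q : List Bool × ℕ => found e q.1 q.2) := by
  refine Primrec.option_bind (primrec_stage.comp
    ((Primrec.fst.pair (Primrec.const e)).pair Primrec.snd)) ?_
  refine Primrec.option_bind (f := fun q : (List Bool × ℕ) × ℕ => decode (α := List Bool) q.2)
    (Primrec.decode.comp Primrec.snd) ?_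
  refine Primrec.option_bind (f := fun q : ((List Bool × ℕ) × ℕ) × List Bool =>
    decode (α := List Bool) q.1.1.2.unpair.1)
    (Primrec.decode.comp (Primrec.fst.comp (Primrec.unpair.comp (Primrec.snd.comp
      (Primrec.fst.comp Primrec.fst))))) ?_
  refine Primrec.ite (Primrec.nat_le.comp
    (Primrec.nat_add.comp (Primrec.list_length.comp Primrec.snd) (Primrec.const 2))
    (Primrec.list_length.comp (Primrec.snd.comp Primrec.fst)))
    (Primrec.option_some.comp (Primrec.snd.comp Primrec.fst)) (Primrec.const none)

theorem primrec_badl (e : ℕ) : Primrec (badl e) :=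
  Primrec.listFilterMap (f := fun σ : List Bool => List.range σ.length)
    (g := fun σ i => found e σ i) (Primrec.list_range.comp Primrec.list_length)
    (primrec_found e)

theorem primrec_tst (e : ℕ) : Primrec₂ (tst e) := by
  have h1 : Primrec (fun q : List Bool × List Bool =>
      4 * cnt (fun _ => true) (badl e q.1) q.1.length q.2) :=
    Primrec.nat_mul.comp (Primrec.const 4) ((primrec_cnt (Primrec.const true)).comp
      (((primrec_badl e).comp Primrec.fst).pair
        ((Primrec.list_length.comp Primrec.fst).pair Primrec.snd)))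
  have h2 : Primrec (fun q : List Bool × List Bool => 2 ^ q.1.length) :=
    (primrec_pow_const 2).comp (Primrec.list_length.comp Primrec.fst)
  exact (Primrec.nat_le.comp h1 h2).decide

/-- the approximation of the path, as a function of the finite oracle -/
def gp (e : ℕ) (σ : List Bool) (m : ℕ) : List Bool := gpath (tst e σ) m

theorem primrec_gp (e : ℕ) : Primrec₂ (gp e) := by
  have : Primrec₂ (fun (σ : List Bool) (m : ℕ) =>
      (Nat.rec [] (fun _ P => P ++ [tst e σ (P ++ [true])]) m : List Bool)) := by
    refine Primrec.nat_rec (f := fun _ : List Bool => ([] : List Bool))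
      (g := fun (σ : List Bool) (q : ℕ × List Bool) => q.2 ++ [tst e σ (q.2 ++ [true])])
      (Primrec.const _) ?_
    refine Primrec.list_concat.comp (Primrec.snd.comp Primrec.snd) ((primrec_tst e).comp
      Primrec.fst (Primrec.list_concat.comp (Primrec.snd.comp Primrec.snd) (Primrec.const true)))
  refine this.of_eq fun σ m => ?_
  unfold gp
  induction m with
  | zero => rfl
  | succ m ih => simp only [gpath, ← ih]

theorem primrec_val4 : Primrec val4 := by
  refine Primrec.list_foldl (f := fun v : List Bool => v) (g := fun _ => 0)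
    (h := fun _ q => 4 * q.1 + q.2.toNat) Primrec.id (Primrec.const 0) ?_
  exact Primrec.nat_add.comp (Primrec.nat_mul.comp (Primrec.const 4)
    (Primrec.fst.comp Primrec.snd)) ((Primrec.dom_bool Bool.toNat).comp
      (Primrec.snd.comp Primrec.snd))

/-! ### The random sequence -/

section random

variable {J : ℕ → Bool} {U : List Bool →. List Bool} {c : Code}

/-- the strings compressed by at least two bits -/
def badSet (U : List Bool →. List Bool) : Set (List Bool) :=
  {w | ∃ p, w ∈ U p ∧ p.length + 2 ≤ w.length}

theorem mem_badl_iff (hc : ∀ n x, x ∈ (((decode (α := List Bool) n : Option (List Bool)) :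
      Part (List Bool)).bind fun a => (U a).map encode) ↔
      ∃ ℓ, x ∈ c.eval (Nat.pair (encode (seg J ℓ)) n)) (w : List Bool) :
    w ∈ badSet U ↔ ∃ t, w ∈ badl (encode c) (seg J t) := by
  constructor
  · rintro ⟨p, hp, hl⟩
    have h0 : encode w ∈ (((decode (α := List Bool) (encode p) : Option (List Bool)) :
        Part (List Bool)).bind fun a => (U a).map encode) := by
      rw [encodek]
      simp only [Part.coe_some, Part.bind_some]
      exact Part.mem_map _ hp
    obtain ⟨ℓ, hℓ⟩ := (hc _ _).1 h0
    obtain ⟨k, hk⟩ := Code.evaln_complete.1 hℓ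
    refine ⟨Nat.pair (encode p) (Nat.pair ℓ k) + 1, ?_⟩
    unfold badl
    rw [List.mem_filterMap]
    refine ⟨Nat.pair (encode p) (Nat.pair ℓ k), by simp, ?_⟩
    unfold found
    rw [stage_seg J _ _ _ (Nat.le_succ _)]
    have hst : stage (seg J (Nat.pair (encode p) (Nat.pair ℓ k))) (encode c)
        (Nat.pair (encode p) (Nat.pair ℓ k)) = some (encode w) := by
      unfold stage
      rw [Denumerable.ofNat_encode, seg_take J
        ((Nat.unpair_left_le _).trans (Nat.unpair_right_le _))]
      simp only [Nat.unpair_pair]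
      exact hk
    rw [hst]
    simp [hl]
  · rintro ⟨t, ht⟩
    unfold badl at ht
    rw [List.mem_filterMap] at ht
    obtain ⟨i, hi, hf⟩ := ht
    simp only [List.mem_range, seg_length] at hi
    unfold found at hf
    obtain ⟨x, hx, hf⟩ := Option.bind_eq_some_iff.1 hf
    obtain ⟨w', hw', hf⟩ := Option.bind_eq_some_iff.1 hf
    obtain ⟨p, hp, hf⟩ := Option.bind_eq_some_iff.1 hf
    split_ifs at hf with hl
    obtain rfl := Option.some.inj hf
    refine ⟨p, ?_, hl⟩
    unfold stage at hx
    rw [Denumerable.ofNat_encode, seg_take J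
      (((Nat.unpair_left_le _).trans (Nat.unpair_right_le _)).trans hi.le)] at hx
    have h1 := (hc _ _).2 ⟨_, Code.evaln_sound hx⟩
    rw [hp] at h1
    simp only [Part.coe_some, Part.bind_some, Part.mem_map_iff] at h1
    obtain ⟨v, hv, hvx⟩ := h1
    rw [← hvx, encodek] at hw'
    obtain rfl := Option.some.inj hw'
    exact hv

theorem badl_mono (e : ℕ) {t t' : ℕ} (h : t ≤ t') {w : List Bool}
    (hw : w ∈ badl e (seg J t)) : w ∈ badl e (seg J t') := by
  unfold badl at *
  rw [List.mem_filterMap] at *
  obtain ⟨i, hi, hf⟩ := hw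
  simp only [List.mem_range, seg_length] at hi
  refine ⟨i, by simpa using lt_of_lt_of_le hi h, ?_⟩
  unfold found at *
  rw [stage_seg J _ _ _ (hi.le.trans h), ← stage_seg J _ _ _ hi.le]
  exact hf

theorem tst_iff (e : ℕ) (t : ℕ) (v : List Bool) : tst e (seg J t) v = true ↔
    con (fun _ => true) {w | w ∈ badl e (seg J t)} t v ≤ 1 / 4 := by
  unfold tst
  rw [decide_eq_true_iff, seg_length]
  have h := cnt_eq (fun _ => true) (badl e (seg J t)) t v
  have h2 : (0 : ℝ) < 2 ^ t := by positivity
  constructor
  · intro h3
    have h4 : (4 : ℝ) * cnt (fun _ => true) (badl e (seg J t)) t v ≤ 2 ^ t := by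
      exact_mod_cast h3
    rw [h] at h4
    have h5 : (2 : ℝ) ^ t * (4 * con (fun _ => true) {w | w ∈ badl e (seg J t)} t v) ≤
        2 ^ t * 1 := by linarith
    have := le_of_mul_le_mul_left h5 h2
    linarith
  · intro h3
    have : (4 : ℝ) * cnt (fun _ => true) (badl e (seg J t)) t v ≤ 2 ^ t := by
      rw [h]
      nlinarith
    exact_mod_cast this

theorem con_stage_mono (e : ℕ) {t t' : ℕ} {k k' : ℕ} (h : t ≤ t') (hk : k ≤ k')
    (v : List Bool) :
    con (fun _ => true) {w | w ∈ badl e (seg J t)} k v ≤
      con (fun _ => true) {w | w ∈ badl e (seg J t')} k' v :=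
  con_mono (fun _ h => h) (fun _ hw => badl_mono e h hw) hk v

open Classical in
/-- the test for all stages -/
noncomputable def tinf (J : ℕ → Bool) (e : ℕ) (v : List Bool) : Bool :=
  decide (∀ t, tst e (seg J t) v = true)

theorem tinf_imp (e t : ℕ) (v : List Bool) (h : tinf J e v = true) :
    tst e (seg J t) v = true := by
  simp only [tinf, decide_eq_true_iff] at h
  exact h t

theorem tst_anti (e : ℕ) {t t' : ℕ} (h : t ≤ t') (v : List Bool)
    (h' : tst e (seg J t') v = true) : tst e (seg J t) v = true := by
  rw [tst_iff] at *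
  exact (con_stage_mono e h h v).trans h'

theorem exists_stage (e m : ℕ) : ∃ t₀, ∀ t, t₀ ≤ t →
    gp e (seg J t) m = gpath (tinf J e) m := by
  classical
  induction m with
  | zero => exact ⟨0, fun _ _ => rfl⟩
  | succ m ih =>
    obtain ⟨t₀, ht₀⟩ := ih
    by_cases hT : tinf J e (gpath (tinf J e) m ++ [true]) = true
    · refine ⟨t₀, fun t ht => ?_⟩
      have h1 := ht₀ t ht
      unfold gp at *
      simp only [gpath]
      rw [h1, hT, tinf_imp e t _ hT]
    · have hT' := hT
      simp only [tinf, decide_eq_true_iff, not_forall] at hT'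
      obtain ⟨t₁, ht₁⟩ := hT'
      refine ⟨max t₀ t₁, fun t ht => ?_⟩
      have h1 := ht₀ t ((le_max_left _ _).trans ht)
      unfold gp at *
      simp only [gpath]
      rw [h1]
      have h2 : tst e (seg J t) (gpath (tinf J e) m ++ [true]) = false := by
        by_contra hne
        exact ht₁ (tst_anti e ((le_max_right _ _).trans ht) _ (by simpa using hne))
      rw [h2]
      simp only [Bool.not_eq_true] at hT
      rw [hT]

/-- the random sequence -/
noncomputable def rnd (J : ℕ → Bool) (e : ℕ) : ℕ → Bool := fun m =>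
  tinf J e (gpath (tinf J e) m ++ [true])

theorem seg_rnd (J : ℕ → Bool) (e m : ℕ) : seg (rnd J e) m = gpath (tinf J e) m := by
  induction m with
  | zero => simp [seg_zero, gpath]
  | succ m ih => rw [seg_succ, ih]; rfl

theorem rnd_invariant (hU : PrefixFree U)
    (hc : ∀ n x, x ∈ (((decode (α := List Bool) n : Option (List Bool)) :
      Part (List Bool)).bind fun a => (U a).map encode) ↔
      ∃ ℓ, x ∈ c.eval (Nat.pair (encode (seg J ℓ)) n)) (m t : ℕ) :
    con (fun _ => true) {w | w ∈ badl (encode c) (seg J t)} t
      (gpath (tinf J (encode c)) m) ≤ 1 / 4 := by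
  induction m generalizing t with
  | zero =>
    have h := con_compressible hU (fun _ => true) 2 t
    have hsub : {w | w ∈ badl (encode c) (seg J t)} ⊆
        {w | ∃ p, w ∈ U p ∧ p.length + 2 ≤ cf (fun _ => true) w.length} := by
      intro w hw
      obtain ⟨p, hp, hl⟩ := (mem_badl_iff hc w).2 ⟨t, hw⟩
      exact ⟨p, hp, by rw [cf_true]; exact hl⟩
    refine (con_mono_set hsub t _).trans (h.trans ?_)
    norm_num
  | succ m ih =>
    set P := gpath (tinf J (encode c)) m with hP
    by_cases hT : tinf J (encode c) (P ++ [true]) = true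
    · simp only [gpath]
      rw [← hP, hT]
      exact (tst_iff _ _ _).1 (tinf_imp _ t _ hT)
    · have hT' := hT
      simp only [tinf, decide_eq_true_iff, not_forall] at hT'
      obtain ⟨t₁, ht₁⟩ := hT'
      rw [tst_iff, not_le] at ht₁
      simp only [gpath]
      rw [← hP]
      simp only [Bool.not_eq_true] at hT
      rw [hT]
      by_contra hne
      rw [not_le] at hne
      have h1 := ih (max t t₁ + 1)
      by_cases hmem : P ∈ {w | w ∈ badl (encode c) (seg J (max t t₁ + 1))}
      · rw [con_mem hmem] at h1
        norm_num at h1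
      · rw [con_succ_true hmem rfl] at h1
        have h2 := con_stage_mono (J := J) (encode c) (t := t) (t' := max t t₁ + 1) (k := t)
          (k' := max t t₁) (by omega) (le_max_left _ _) (P ++ [false])
        have h3 := con_stage_mono (J := J) (encode c) (t := t₁) (t' := max t t₁ + 1) (k := t₁)
          (k' := max t t₁) (by omega) (le_max_right _ _) (P ++ [true])
        linarith

theorem rnd_not_bad (hU : PrefixFree U)
    (hc : ∀ n x, x ∈ (((decode (α := List Bool) n : Option (List Bool)) :
      Part (List Bool)).bind fun a => (U a).map encode) ↔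
      ∃ ℓ, x ∈ c.eval (Nat.pair (encode (seg J ℓ)) n)) (m : ℕ) :
    seg (rnd J (encode c)) m ∉ badSet U := by
  intro h
  obtain ⟨t, ht⟩ := (mem_badl_iff hc _).1 h
  have h1 := rnd_invariant hU hc m t
  rw [seg_rnd] at ht
  rw [con_mem (by exact ht)] at h1
  norm_num at h1

end random

/-! ### The real number -/

/-- the real number coding the sequence `Y` in base four -/
noncomputable def realOf (Y : ℕ → Bool) : ℝ := ⨆ m : ℕ, (val4 (seg Y m) : ℝ) / 4 ^ m

theorem realOf_aux (Y : ℕ → Bool) {m n : ℕ} (h : m ≤ n) :
    (val4 (seg Y m) : ℝ) / 4 ^ m ≤ (val4 (seg Y n) : ℝ) / 4 ^ n ∧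
    ((val4 (seg Y n) : ℝ) + 1 / 3) / 4 ^ n ≤ ((val4 (seg Y m) : ℝ) + 1 / 3) / 4 ^ m := by
  induction n, h using Nat.le_induction with
  | base => exact ⟨le_rfl, le_rfl⟩
  | succ n _ ih =>
    have hv : (val4 (seg Y (n + 1)) : ℝ) = 4 * val4 (seg Y n) + ((Y n).toNat : ℝ) := by
      rw [seg_succ, val4_snoc]
      push_cast
      rfl
    have h0 : (0 : ℝ) ≤ ((Y n).toNat : ℝ) := Nat.cast_nonneg _
    have h1 : ((Y n).toNat : ℝ) ≤ 1 := by exact_mod_cast Bool.toNat_le (Y n)
    have hp : (0 : ℝ) < 4 ^ n := by positivity
    rw [hv, pow_succ]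
    refine ⟨ih.1.trans ?_, le_trans ?_ ih.2⟩
    · rw [div_le_div_iff₀ hp (by positivity)]
      nlinarith
    · rw [div_le_div_iff₀ (by positivity) hp]
      nlinarith

theorem realOf_bdd (Y : ℕ → Bool) :
    BddAbove (Set.range fun m : ℕ => (val4 (seg Y m) : ℝ) / 4 ^ m) := by
  refine ⟨1 / 3, ?_⟩
  rintro _ ⟨m, rfl⟩
  have h := (realOf_aux Y (Nat.zero_le m)).2
  simp only [seg_zero] at h
  have hp : (0 : ℝ) < 4 ^ m := by positivity
  have h2 : (val4 (seg Y m) : ℝ) / 4 ^ m ≤ ((val4 (seg Y m) : ℝ) + 1 / 3) / 4 ^ m := by
    gcongr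
    linarith
  refine h2.trans (h.trans ?_)
  simp [val4]

theorem le_realOf (Y : ℕ → Bool) (m : ℕ) : (val4 (seg Y m) : ℝ) / 4 ^ m ≤ realOf Y :=
  le_ciSup (realOf_bdd Y) m

theorem realOf_le (Y : ℕ → Bool) (m : ℕ) : realOf Y ≤ ((val4 (seg Y m) : ℝ) + 1 / 3) / 4 ^ m := by
  refine ciSup_le fun n => ?_
  have key : ∀ k : ℕ, (val4 (seg Y k) : ℝ) / 4 ^ k ≤ ((val4 (seg Y k) : ℝ) + 1 / 3) / 4 ^ k := by
    intro k
    gcongr
    linarith
  rcases le_total m n with h | h
  · exact (key n).trans (realOf_aux Y h).2
  · exact (realOf_aux Y h).1.trans (key m)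

theorem realOf_nonneg (Y : ℕ → Bool) : 0 ≤ realOf Y := by
  have := le_realOf Y 0
  simpa [seg_zero, val4] using this

theorem realOf_le_third (Y : ℕ → Bool) : realOf Y ≤ 1 / 3 := by
  have := realOf_le Y 0
  simpa [seg_zero, val4] using this

end Pool.Agent.MP_33dedf_lc
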