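import Pool.Agent.MP_33dedf_lc.Negative

/-!
There is a real number `s` such that the jump of every sequence of effective dimension `s`
computes a sequence which is random relative to the halting problem.
-/

set_option autoImplicit false

namespace Pool.Agent.MP_33dedf_lc

open Encodable
open Nat.Partrec (Code)

/-- the jump of `X` decides whether `K(X ↾ n) < (a / b) n` for some `n ≥ k` -/
theorem exists_query : ∃ c1 : ℕ × (ℕ × ℕ) → ℕ, Computable c1 ∧
    ∀ (X : ℕ → Bool) (k a b : ℕ), jump X (c1 (k, (a, b))) = true ↔
      ∃ n, k ≤ n ∧ ∃ p, seg X n ∈ optMachine emptySeq p ∧ p.length * b < a * n := by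
  classical
  have hU : Partrec (optMachine emptySeq) :=
    RecursiveIn.partrec_of_const (s := Part.some 0)
      (optMachine_isOptimal emptySeq).machine.recursive
  obtain ⟨cU, hcU0⟩ := Code.exists_code.1 hU
  have hcU : ∀ n, cU.eval n = ((decode (α := List Bool) n : Option (List Bool)) :
      Part (List Bool)).bind fun a => (optMachine emptySeq a).map encode :=
    fun n => congrFun hcU0 n
  let f : (ℕ × (ℕ × ℕ)) × List Bool → ℕ → Option ℕ := fun q t =>
    if q.1.1 ≤ q.2.length ∧ Code.evaln t.unpair.2 cU t.unpair.1 = some (encode q.2) ∧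
      ((decode (α := List Bool) t.unpair.1).map
        (fun p => decide (p.length * q.1.2.2 < q.1.2.1 * q.2.length))).getD false = true
    then some 0 else none
  have hf : Computable₂ f := by
    refine (Primrec.ite (PrimrecPred.and ?_ (PrimrecPred.and ?_ ?_)) (Primrec.const (some 0))
      (Primrec.const none)).to_comp
    · exact Primrec.nat_le.comp (Primrec.fst.comp (Primrec.fst.comp Primrec.fst))
        (Primrec.list_length.comp (Primrec.snd.comp Primrec.fst))
    · have hu : Primrec (fun q : ((ℕ × (ℕ × ℕ)) × List Bool) × ℕ => q.2.unpair) :=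
        Primrec.unpair.comp Primrec.snd
      exact Primrec.eq.comp (Code.primrec_evaln.comp
        (((Primrec.snd.comp hu).pair (Primrec.const cU)).pair (Primrec.fst.comp hu)))
        (Primrec.option_some.comp (Primrec.encode.comp (Primrec.snd.comp Primrec.fst)))
    · refine Primrec.eq.comp (Primrec.option_getD.comp (Primrec.option_map
        (Primrec.decode.comp (Primrec.fst.comp (Primrec.unpair.comp Primrec.snd))) ?_)
        (Primrec.const false)) (Primrec.const true)
      refine (Primrec.nat_lt.comp (Primrec.nat_mul.comp (Primrec.list_length.comp Primrec.snd)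
        (Primrec.snd.comp (Primrec.snd.comp (Primrec.fst.comp (Primrec.fst.comp Primrec.fst)))))
        (Primrec.nat_mul.comp (Primrec.fst.comp (Primrec.snd.comp (Primrec.fst.comp
          (Primrec.fst.comp Primrec.fst)))) (Primrec.list_length.comp
          (Primrec.snd.comp (Primrec.fst.comp Primrec.fst))))).decide
  have hg : Partrec₂ (fun (q : ℕ × (ℕ × ℕ)) (σ : List Bool) => Nat.rfindOpt (f (q, σ))) :=
    Partrec.rfindOpt hf
  obtain ⟨c1, hc1, h⟩ := exists_reduction hg
  refine ⟨c1, hc1, fun X k a b => ?_⟩
  rw [h X]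
  have key : ∀ ℓ : ℕ, (Nat.rfindOpt (f ((k, (a, b)), seg X ℓ))).Dom ↔
      k ≤ ℓ ∧ ∃ p, seg X ℓ ∈ optMachine emptySeq p ∧ p.length * b < a * ℓ := by
    intro ℓ
    rw [Nat.rfindOpt_dom]
    constructor
    · rintro ⟨t, x, hx⟩
      simp only [f] at hx
      split_ifs at hx with hcond
      · obtain ⟨h1, h2, h3⟩ := hcond
        refine ⟨by simpa using h1, ?_⟩
        cases hd : decode (α := List Bool) t.unpair.1 with
        | none => rw [hd] at h3; simp at h3
        | some p =>
          rw [hd] at h3
          simp only [Option.map_some, Option.getD_some, decide_eq_true_iff, seg_length] at h3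
          refine ⟨p, ?_, h3⟩
          have h4 := Code.evaln_sound (k := t.unpair.2) (c := cU) (n := t.unpair.1)
            (x := encode (seg X ℓ)) h2
          rw [hcU, hd] at h4
          simp only [Part.coe_some, Part.bind_some, Part.mem_map_iff] at h4
          obtain ⟨w, hw, e⟩ := h4
          rw [← encode_injective e]
          exact hw
      · simp at hx
    · rintro ⟨h1, p, hp, hl⟩
      have h4 : encode (seg X ℓ) ∈ cU.eval (encode p) := by
        rw [hcU, encodek]
        simp only [Part.coe_some, Part.bind_some]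
        exact Part.mem_map _ hp
      obtain ⟨m, hm⟩ := Code.evaln_complete.1 h4
      refine ⟨Nat.pair (encode p) m, 0, ?_⟩
      simp only [f, Nat.unpair_pair, encodek, Option.map_some, Option.getD_some,
        decide_eq_true_iff, seg_length]
      rw [if_pos ⟨h1, hm, hl⟩]
      rfl
  constructor
  · rintro ⟨ℓ, hℓ⟩
    exact ⟨ℓ, (key ℓ).1 hℓ⟩
  · rintro ⟨n, hn⟩
    exact ⟨n, (key n).2 hn⟩

theorem seg_emptySeq (n : ℕ) : seg emptySeq n = (List.range n).map (fun _ => false) := rfl

/-- the halting problem is computable from the jump of any sequence -/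
theorem zeroJump_le (X : ℕ → Bool) : ComputableIn {chi (jump X)} zeroJump := by
  let f : ℕ × List Bool → ℕ → Option ℕ := fun q t =>
    Code.evaln t.unpair.2 (Denumerable.ofNat Code q.1)
      (Nat.pair (encode (seg emptySeq t.unpair.1)) q.1)
  have hf : Computable₂ f := by
    have hu : Primrec (fun q : (ℕ × List Bool) × ℕ => q.2.unpair) :=
      Primrec.unpair.comp Primrec.snd
    have hseg : Primrec (fun n : ℕ => seg emptySeq n) :=
      Primrec.list_map (f := fun n : ℕ => List.range n) (g := fun _ _ => false)
        Primrec.list_range (Primrec.const false)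
    exact (Code.primrec_evaln.comp (((Primrec.snd.comp hu).pair ((Primrec.ofNat Code).comp
      (Primrec.fst.comp Primrec.fst))).pair (Primrec₂.natPair.comp (Primrec.encode.comp
      (hseg.comp (Primrec.fst.comp hu))) (Primrec.fst.comp Primrec.fst)))).to_comp
  have hg : Partrec₂ (fun (e : ℕ) (σ : List Bool) => Nat.rfindOpt (f (e, σ))) :=
    Partrec.rfindOpt hf
  obtain ⟨c2, hc2, h⟩ := exists_reduction hg
  have hJ : ∀ e, zeroJump e = jump X (c2 e) := by
    intro e
    have key : jump X (c2 e) = true ↔ zeroJump e = true := by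
      rw [h X, zeroJump, jump_iff]
      constructor
      · rintro ⟨ℓ, hℓ⟩
        rw [Nat.rfindOpt_dom] at hℓ
        obtain ⟨t, x, hx⟩ := hℓ
        exact ⟨t.unpair.1, Part.dom_iff_mem.2 ⟨x, Code.evaln_sound hx⟩⟩
      · rintro ⟨n, hn⟩
        obtain ⟨x, hx⟩ := Part.dom_iff_mem.1 hn
        obtain ⟨k, hk⟩ := Code.evaln_complete.1 hx
        refine ⟨0, ?_⟩
        rw [Nat.rfindOpt_dom]
        refine ⟨Nat.pair n k, x, ?_⟩
        simp only [f, Nat.unpair_pair]
        exact hk
    cases e1 : zeroJump e <;> cases e2 : jump X (c2 e) <;> simp_all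
  have := ComputableIn_comp (f := jump X) (g := c2) (ComputableIn_chi (jump X))
    hc2.computableIn
  refine RecursiveIn.of_eq this fun e => ?_
  rw [hJ]

/-- The main construction. -/
theorem exists_real : ∃ (s : ℝ) (Y : ℕ → Bool), 0 < s ∧ s < 1 ∧
    ENNReal.ofReal s < effDim zeroJump Y ∧
    ∀ X : ℕ → Bool, effDim emptySeq X = ENNReal.ofReal s → ComputableIn {chi (jump X)} Y := by
  classical
  have hopt := optMachine_isOptimal zeroJump
  have hrec := hopt.machine.recursive
  unfold RecursiveIn at hrec
  obtain ⟨c, hc⟩ := exists_code_of_recursiveIn hrec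
  set Y := rnd zeroJump (encode c) with hY
  set r := realOf Y with hr
  have hr0 : 0 ≤ r := realOf_nonneg Y
  have hr1 : r ≤ 1 / 3 := realOf_le_third Y
  refine ⟨1 / 4 + r, Y, by linarith, by linarith, ?_, ?_⟩
  · -- the dimension of `Y`
    have h1 : ((3 : ℕ) : ENNReal) / ((4 : ℕ) : ENNReal) ≤ effDim zeroJump Y := by
      refine le_effDim (by norm_num) (k := 4) fun n hn p hp => ?_
      have h2 := rnd_not_bad hopt.machine.free hc n
      have h3 : ¬ p.length + 2 ≤ (seg Y n).length := fun h => h2 ⟨p, hp, h⟩
      rw [seg_length] at h3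
      omega
    refine lt_of_lt_of_le ?_ h1
    have h4 : ((3 : ℕ) : ENNReal) / ((4 : ℕ) : ENNReal) = ENNReal.ofReal (3 / 4) := by
      rw [ENNReal.ofReal_div_of_pos (by norm_num)]
      norm_num
    rw [h4]
    exact (ENNReal.ofReal_lt_ofReal_iff (by norm_num)).2 (by linarith)
  · intro X hX
    obtain ⟨c1, hc1, hquery⟩ := exists_query
    -- the rational number belonging to a string of length `m`
    let A : List Bool → ℕ := fun v => 4 ^ v.length + 4 * val4 v - 2
    let G : ℕ → ℕ → List Bool := fun t m => gp (encode c) (seg zeroJump t) m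
    have hZJ := ComputableIn_seg (zeroJump_le X)
    have hG : ComputableIn {chi (jump X)} (fun q : ℕ × ℕ => G q.2.unpair.2 (q.1 + 1)) := by
      refine ComputableIn_comp₂ (f := gp (encode c)) (g := fun q : ℕ × ℕ =>
        seg zeroJump q.2.unpair.2) (h := fun q : ℕ × ℕ => q.1 + 1)
        (primrec_gp (encode c)).to_comp ?_ ?_
      · exact ComputableIn_comp (g := fun q : ℕ × ℕ => q.2.unpair.2) hZJ (Primrec.to_comp (Primrec.snd.comp
          (Primrec.unpair.comp Primrec.snd))).computableIn
      · exact (Primrec.to_comp (Primrec.succ.comp Primrec.fst)).computableIn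
    have hA : Primrec A := Primrec.nat_sub.comp (Primrec.nat_add.comp
      ((primrec_pow_const 4).comp Primrec.list_length)
      (Primrec.nat_mul.comp (Primrec.const 4) primrec_val4)) (Primrec.const 2)
    let P : ℕ → ℕ → Bool := fun z y =>
      !(jump X (c1 (y.unpair.1, (A (G y.unpair.2 (z + 1)), 4 ^ (z + 2)))))
    have hP : ComputableIn {chi (jump X)} (fun q : ℕ × ℕ => P q.1 q.2) := by
      have h1 : ComputableIn {chi (jump X)} (fun q : ℕ × ℕ =>
          (q.2.unpair.1, (A (G q.2.unpair.2 (q.1 + 1)), 4 ^ (q.1 + 2)))) := by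
        refine ComputableIn_pair ?_ (ComputableIn_pair ?_ ?_)
        · exact (Primrec.to_comp (Primrec.fst.comp (Primrec.unpair.comp Primrec.snd))).computableIn
        · exact ComputableIn_comp hA.to_comp.computableIn hG
        · exact (Primrec.to_comp ((primrec_pow_const 4).comp (Primrec.nat_add.comp Primrec.fst
            (Primrec.const 2)))).computableIn
      exact ComputableIn_comp (f := fun b : Bool => !b) (Primrec.not.to_comp.computableIn)
        (ComputableIn_comp (ComputableIn_chi (jump X)) (ComputableIn_comp hc1.computableIn h1))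
    -- correctness of the test
    have hsound : ∀ z y, P z y = true → G y.unpair.2 (z + 1) = seg Y (z + 1) := by
      intro z y hzy
      set v := G y.unpair.2 (z + 1) with hv
      have hvl : v.length = z + 1 := gpath_length _ _
      have h1 : ¬ ∃ n, y.unpair.1 ≤ n ∧ ∃ p, seg X n ∈ optMachine emptySeq p ∧
          p.length * 4 ^ (z + 2) < A v * n := by
        rw [← hquery]
        intro h
        simp only [P, Bool.not_eq_true', ← hv] at hzy
        rw [h] at hzy
        exact absurd hzy (by simp)
      have h2 : ((A v : ℕ) : ENNReal) / ((4 ^ (z + 2) : ℕ) : ENNReal) ≤ effDim emptySeq X := by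
        refine le_effDim (by positivity) (k := y.unpair.1) fun n hn p hp => ?_
        by_contra hlt
        exact h1 ⟨n, hn, p, hp, not_le.1 hlt⟩
      rw [hX] at h2
      have h3 : ((A v : ℝ)) / (4 ^ (z + 2) : ℝ) ≤ 1 / 4 + r := by
        have h4 : ((A v : ℕ) : ENNReal) / ((4 ^ (z + 2) : ℕ) : ENNReal) =
            ENNReal.ofReal ((A v : ℝ) / (4 ^ (z + 2) : ℝ)) := by
          rw [ENNReal.ofReal_div_of_pos (by positivity), ENNReal.ofReal_natCast]
          congr 1
          have : (4 ^ (z + 2) : ℝ) = ((4 ^ (z + 2) : ℕ) : ℝ) := by push_cast; rfl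
          rw [this, ENNReal.ofReal_natCast]
        rw [h4] at h2
        exact (ENNReal.ofReal_le_ofReal_iff (by linarith)).1 h2
      have hAv : (A v : ℝ) = 4 ^ (z + 1) + 4 * val4 v - 2 := by
        simp only [A, hvl]
        have : 2 ≤ 4 ^ (z + 1) + 4 * val4 v := by
          have : 4 ^ 1 ≤ 4 ^ (z + 1) := Nat.pow_le_pow_right (by norm_num) (by omega)
          omega
        push_cast [Nat.cast_sub this]
        ring
      have hle := realOf_le Y (z + 1)
      rw [← hr] at hle
      have hcmp := gpath_compare (T := tst (encode c) (seg zeroJump y.unpair.2))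
        (T' := tinf zeroJump (encode c)) (fun w hw => tinf_imp _ _ w hw) (z + 1)
      rcases hcmp with hcmp | hcmp
      · rw [hv]
        change gpath _ _ = _
        rw [hcmp, hY, seg_rnd]
      · exfalso
        have hval : ((val4 (seg Y (z + 1)) : ℝ)) + 1 ≤ val4 v := by
          rw [hY, seg_rnd]
          exact_mod_cast hcmp
        rw [hAv, div_le_iff₀ (by positivity)] at h3
        rw [le_div_iff₀ (by positivity)] at hle
        have e1 : (4 : ℝ) ^ (z + 2) = 4 * 4 ^ (z + 1) := by ring
        rw [e1] at h3
        nlinarith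
    -- the search terminates
    have hex : ∀ z, ∃ y, P z y = true := by
      intro z
      obtain ⟨t₀, ht₀⟩ := exists_stage (J := zeroJump) (encode c) (z + 1)
      have hG0 : G t₀ (z + 1) = seg Y (z + 1) := by
        rw [hY, seg_rnd]
        exact ht₀ t₀ le_rfl
      set v := seg Y (z + 1) with hv
      have hvl : v.length = z + 1 := seg_length _ _
      have hAv : (A v : ℝ) = 4 ^ (z + 1) + 4 * val4 v - 2 := by
        simp only [A, hvl]
        have : 2 ≤ 4 ^ (z + 1) + 4 * val4 v := by
          have : 4 ^ 1 ≤ 4 ^ (z + 1) := Nat.pow_le_pow_right (by norm_num) (by omega)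
          omega
        push_cast [Nat.cast_sub this]
        ring
      have hle := le_realOf Y (z + 1)
      rw [← hr, ← hv, div_le_iff₀ (by positivity)] at hle
      have h3 : ((A v : ℝ)) / (4 ^ (z + 2) : ℝ) < 1 / 4 + r := by
        rw [hAv, div_lt_iff₀ (by positivity)]
        have e1 : (4 : ℝ) ^ (z + 2) = 4 * 4 ^ (z + 1) := by ring
        rw [e1]
        nlinarith
      have h2 : ((A v : ℕ) : ENNReal) / ((4 ^ (z + 2) : ℕ) : ENNReal) < effDim emptySeq X := by
        have h4 : ((A v : ℕ) : ENNReal) / ((4 ^ (z + 2) : ℕ) : ENNReal) =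
            ENNReal.ofReal ((A v : ℝ) / (4 ^ (z + 2) : ℝ)) := by
          rw [ENNReal.ofReal_div_of_pos (by positivity), ENNReal.ofReal_natCast]
          congr 1
          have : (4 ^ (z + 2) : ℝ) = ((4 ^ (z + 2) : ℕ) : ℝ) := by push_cast; rfl
          rw [this, ENNReal.ofReal_natCast]
        rw [h4, hX]
        exact (ENNReal.ofReal_lt_ofReal_iff (by linarith)).2 h3
      obtain ⟨k, hk⟩ := exists_of_lt_effDim (by positivity) h2
      refine ⟨Nat.pair k t₀, ?_⟩
      simp only [P, Nat.unpair_pair, Bool.not_eq_true', hG0]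
      by_contra hne
      have hne' : jump X (c1 (k, (A v, 4 ^ (z + 2)))) = true := by simpa using hne
      rw [hquery] at hne'
      obtain ⟨n, hn, p, hp, hlt⟩ := hne'
      exact absurd (hk n hn p hp) (not_le.2 hlt)
    -- the computation of `Y`
    have hsearch := RecursiveIn_rfind (p := P) hP
    have hout : ComputableIn {chi (jump X)} (fun q : ℕ × ℕ =>
        (G q.2.unpair.2 (q.1 + 1)).getD q.1 false) :=
      ComputableIn_comp₂ (f := fun (l : List Bool) (n : ℕ) => l.getD n false)
        (Primrec.list_getD false).to_comp hG (Primrec.to_comp Primrec.fst).computableIn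
    have hfin := RecursiveIn_bind (g := fun (z y : ℕ) =>
      Part.some ((G y.unpair.2 (z + 1)).getD z false)) hsearch hout
    refine RecursiveIn.of_eq_tot hfin fun z => ?_
    have hdom : (Nat.rfind (fun n => Part.some (P z n))).Dom := by
      obtain ⟨y, hy⟩ := hex z
      rw [Nat.rfind_dom]
      exact ⟨y, by simp [hy], fun _ => trivial⟩
    obtain ⟨y, hy⟩ := Part.dom_iff_mem.1 hdom
    rw [Part.mem_bind_iff]
    refine ⟨y, hy, ?_⟩
    have h1 : P z y = true := by
      exact (Part.mem_some_iff.1 (Nat.rfind_spec hy)).symm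
    rw [hsound z y h1, Part.mem_some_iff, List.getD_eq_getElem?_getD,
      seg_getElem? Y (Nat.lt_succ_self z)]
    rfl

end Pool.Agent.MP_33dedf_lc
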