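import Pool.Agent.MP_33dedf_lc.Basic

/-!
The use principle: a partial function recursive in `A` is given by a partial recursive
functional applied to the finite initial segments of `A`.
-/

set_option autoImplicit false

namespace Pool.Agent.MP_33dedf_lc

open Encodable
open Nat.Partrec (Code)

/-- `f` is computed from the initial segments of `A` by a partial recursive functional. -/
def HasFun (A : ℕ → Bool) (f : ℕ →. ℕ) : Prop :=
  ∃ F : List Bool → ℕ →. ℕ, Partrec₂ F ∧
    (∀ ℓ ℓ' n x, ℓ ≤ ℓ' → x ∈ F (seg A ℓ) n → x ∈ F (seg A ℓ') n) ∧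
    (∀ n x, x ∈ f n ↔ ∃ ℓ, x ∈ F (seg A ℓ) n)

theorem hasFun_of_partrec {A : ℕ → Bool} {f : ℕ →. ℕ} (hf : Nat.Partrec f) : HasFun A f := by
  refine ⟨fun _ n => f n, ?_, fun _ _ _ _ _ h => h, fun n x => ⟨fun h => ⟨0, h⟩, fun ⟨_, h⟩ => h⟩⟩
  exact (Partrec.nat_iff.2 hf).comp Computable.snd

theorem hasFun_chi (A : ℕ → Bool) : HasFun A (chi A) := by
  refine ⟨fun σ n => ((σ[n]?).map Bool.toNat : Option ℕ), ?_, ?_, ?_⟩
  · refine Computable.ofOption ?_
    exact Computable.option_map (Computable.list_getElem?.comp Computable.fst Computable.snd)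
      ((Primrec.dom_bool _).to_comp.comp Computable.snd).to₂
  · intro ℓ ℓ' n x h hx
    dsimp only at hx ⊢
    rcases lt_or_ge n ℓ with h1 | h1
    · rw [seg_getElem? A h1] at hx
      rw [seg_getElem? A (lt_of_lt_of_le h1 h)]
      exact hx
    · rw [seg_getElem?_none A h1] at hx
      simp at hx
  · intro n x
    dsimp only
    constructor
    · intro h
      refine ⟨n + 1, ?_⟩
      rw [seg_getElem? A (Nat.lt_succ_self n)]
      simpa [chi] using h
    · rintro ⟨ℓ, hx⟩
      rcases lt_or_ge n ℓ with h1 | h1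
      · rw [seg_getElem? A h1] at hx
        simpa [chi] using hx
      · rw [seg_getElem?_none A h1] at hx
        simp at hx

theorem HasFun.pair {A : ℕ → Bool} {f h : ℕ →. ℕ} (hf : HasFun A f) (hh : HasFun A h) :
    HasFun A fun n => (Nat.pair <$> f n <*> h n) := by
  obtain ⟨F, F1, F2, F3⟩ := hf
  obtain ⟨H, H1, H2, H3⟩ := hh
  refine ⟨fun σ n => (F σ n).bind fun x => (H σ n).map fun y => Nat.pair x y, ?_, ?_, ?_⟩
  · refine Partrec.bind (f := fun p : List Bool × ℕ => F p.1 p.2) F1 ?_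
    refine Partrec.map (f := fun q : (List Bool × ℕ) × ℕ => H q.1.1 q.1.2)
      (H1.comp (Computable.fst.comp Computable.fst) (Computable.snd.comp Computable.fst)) ?_
    exact (Primrec₂.natPair.to_comp.comp (Computable.snd.comp Computable.fst) Computable.snd)
  · intro ℓ ℓ' n x h hx
    simp only [Part.mem_bind_iff, Part.mem_map_iff] at hx ⊢
    obtain ⟨a, ha, b, hb, e⟩ := hx
    exact ⟨a, F2 _ _ _ _ h ha, b, H2 _ _ _ _ h hb, e⟩
  · intro n x
    constructor
    · intro h
      simp only [Seq.seq, Part.map_eq_map, Part.mem_bind_iff,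
        Part.mem_map_iff, exists_exists_and_eq_and] at h
      obtain ⟨a, ha, b, hb, e⟩ := h
      obtain ⟨l1, h1⟩ := (F3 _ _).1 ha
      obtain ⟨l2, h2⟩ := (H3 _ _).1 hb
      refine ⟨max l1 l2, ?_⟩
      simp only [Part.mem_bind_iff, Part.mem_map_iff]
      exact ⟨a, F2 _ _ _ _ (le_max_left _ _) h1, b, H2 _ _ _ _ (le_max_right _ _) h2, e⟩
    · rintro ⟨ℓ, hx⟩
      simp only [Part.mem_bind_iff, Part.mem_map_iff] at hx
      obtain ⟨a, ha, b, hb, e⟩ := hx
      simp only [Seq.seq, Part.map_eq_map, Part.mem_bind_iff,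
        Part.mem_map_iff, exists_exists_and_eq_and]
      exact ⟨a, (F3 _ _).2 ⟨ℓ, ha⟩, b, (H3 _ _).2 ⟨ℓ, hb⟩, e⟩

theorem HasFun.comp {A : ℕ → Bool} {f h : ℕ →. ℕ} (hf : HasFun A f) (hh : HasFun A h) :
    HasFun A fun n => h n >>= f := by
  obtain ⟨F, F1, F2, F3⟩ := hf
  obtain ⟨H, H1, H2, H3⟩ := hh
  refine ⟨fun σ n => (H σ n).bind fun x => F σ x, ?_, ?_, ?_⟩
  · refine Partrec.bind (f := fun p : List Bool × ℕ => H p.1 p.2) H1 ?_
    exact F1.comp (Computable.fst.comp Computable.fst) Computable.snd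
  · intro ℓ ℓ' n x h hx
    simp only [Part.mem_bind_iff] at hx ⊢
    obtain ⟨a, ha, hb⟩ := hx
    exact ⟨a, H2 _ _ _ _ h ha, F2 _ _ _ _ h hb⟩
  · intro n x
    constructor
    · intro h
      simp only [Part.bind_eq_bind, Part.mem_bind_iff] at h
      obtain ⟨a, ha, hb⟩ := h
      obtain ⟨l1, h1⟩ := (H3 _ _).1 ha
      obtain ⟨l2, h2⟩ := (F3 _ _).1 hb
      refine ⟨max l1 l2, ?_⟩
      simp only [Part.mem_bind_iff]
      exact ⟨a, H2 _ _ _ _ (le_max_left _ _) h1, F2 _ _ _ _ (le_max_right _ _) h2⟩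
    · rintro ⟨ℓ, hx⟩
      simp only [Part.mem_bind_iff] at hx
      obtain ⟨a, ha, hb⟩ := hx
      simp only [Part.bind_eq_bind, Part.mem_bind_iff]
      exact ⟨a, (H3 _ _).2 ⟨ℓ, ha⟩, (F3 _ _).2 ⟨ℓ, hb⟩⟩

theorem HasFun.prec {A : ℕ → Bool} {f h : ℕ →. ℕ} (hf : HasFun A f) (hh : HasFun A h) :
    HasFun A (fun p =>
        let (a, n) := Nat.unpair p
        n.rec (f a) fun y IH => do
          let i ← IH
          h (Nat.pair a (Nat.pair y i))) := by
  obtain ⟨F, F1, F2, F3⟩ := hf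
  obtain ⟨H, H1, H2, H3⟩ := hh
  refine ⟨fun σ p => (p.unpair.2).rec (F σ p.unpair.1) fun y IH => IH.bind fun i =>
    H σ (Nat.pair p.unpair.1 (Nat.pair y i)), ?_, ?_, ?_⟩
  · refine Partrec.nat_rec (f := fun p : List Bool × ℕ => p.2.unpair.2)
      (g := fun p : List Bool × ℕ => F p.1 p.2.unpair.1)
      (h := fun (p : List Bool × ℕ) (q : ℕ × ℕ) => H p.1 (Nat.pair p.2.unpair.1 (Nat.pair q.1 q.2)))
      ?_ ?_ ?_
    · exact Computable.snd.comp (Computable.unpair.comp Computable.snd)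
    · exact F1.comp Computable.fst (Computable.fst.comp (Computable.unpair.comp Computable.snd))
    · refine H1.comp (Computable.fst.comp Computable.fst) ?_
      exact Primrec₂.natPair.to_comp.comp
        (Computable.fst.comp (Computable.unpair.comp (Computable.snd.comp Computable.fst)))
        (Primrec₂.natPair.to_comp.comp (Computable.fst.comp Computable.snd)
          (Computable.snd.comp Computable.snd))
  · intro ℓ ℓ' p x h
    dsimp only
    generalize p.unpair.2 = n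
    induction n generalizing x with
    | zero => exact F2 _ _ _ _ h
    | succ n ih =>
      simp only [Part.mem_bind_iff]
      rintro ⟨a, ha, hb⟩
      exact ⟨a, ih a ha, H2 _ _ _ _ h hb⟩
  · intro p x
    dsimp only
    have mono : ∀ (n ℓ ℓ' : ℕ) (x : ℕ), ℓ ≤ ℓ' →
      x ∈ (n.rec (F (seg A ℓ) p.unpair.1) fun y IH => IH.bind fun i =>
        H (seg A ℓ) (Nat.pair p.unpair.1 (Nat.pair y i)) : Part ℕ) →
      x ∈ (n.rec (F (seg A ℓ') p.unpair.1) fun y IH => IH.bind fun i =>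
        H (seg A ℓ') (Nat.pair p.unpair.1 (Nat.pair y i)) : Part ℕ) := by
      intro n ℓ ℓ' x h
      induction n generalizing x with
      | zero => exact F2 _ _ _ _ h
      | succ n ih =>
        simp only [Part.mem_bind_iff]
        rintro ⟨a, ha, hb⟩
        exact ⟨a, ih a ha, H2 _ _ _ _ h hb⟩
    generalize p.unpair.2 = n
    induction n generalizing x with
    | zero => exact F3 _ _
    | succ n ih =>
      simp only [Part.bind_eq_bind, Part.mem_bind_iff]
      constructor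
      · rintro ⟨a, ha, hb⟩
        obtain ⟨l1, h1⟩ := (ih a).1 ha
        obtain ⟨l2, h2⟩ := (H3 _ _).1 hb
        exact ⟨max l1 l2, a, mono n _ _ _ (le_max_left _ _) h1,
          H2 _ _ _ _ (le_max_right _ _) h2⟩
      · rintro ⟨ℓ, a, ha, hb⟩
        exact ⟨a, (ih a).2 ⟨ℓ, ha⟩, (H3 _ _).2 ⟨ℓ, hb⟩⟩

theorem HasFun.rfind {A : ℕ → Bool} {f : ℕ →. ℕ} (hf : HasFun A f) :
    HasFun A fun a => Nat.rfind fun n => (fun m => m = 0) <$> f (Nat.pair a n) := by
  obtain ⟨F, F1, F2, F3⟩ := hf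
  refine ⟨fun σ a => Nat.rfind fun n => (F σ (Nat.pair a n)).map fun m => decide (m = 0),
    ?_, ?_, ?_⟩
  · refine Partrec.rfind (p := fun (p : List Bool × ℕ) (n : ℕ) =>
      (F p.1 (Nat.pair p.2 n)).map fun m => decide (m = 0)) ?_
    refine Partrec.map (f := fun q : (List Bool × ℕ) × ℕ => F q.1.1 (Nat.pair q.1.2 q.2)) ?_ ?_
    · exact F1.comp (Computable.fst.comp Computable.fst)
        (Primrec₂.natPair.to_comp.comp (Computable.snd.comp Computable.fst) Computable.snd)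
    · exact (Primrec.eq.decide.to_comp.comp Computable.snd (Computable.const 0)).to₂
  · intro ℓ ℓ' a x h hx
    rw [Nat.mem_rfind] at hx ⊢
    refine ⟨?_, fun {m} hm => ?_⟩
    · obtain ⟨b, hb, e⟩ := (Part.mem_map_iff _).1 hx.1
      exact (Part.mem_map_iff _).2 ⟨b, F2 _ _ _ _ h hb, e⟩
    · obtain ⟨b, hb, e⟩ := (Part.mem_map_iff _).1 (hx.2 hm)
      exact (Part.mem_map_iff _).2 ⟨b, F2 _ _ _ _ h hb, e⟩
  · intro a x
    constructor
    · intro h
      rw [Nat.mem_rfind] at h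
      obtain ⟨h0, h1⟩ := h
      simp only [Part.map_eq_map] at h0 h1
      obtain ⟨b, hb, e⟩ := (Part.mem_map_iff _).1 h0
      obtain ⟨l0, hl0⟩ := (F3 _ _).1 hb
      have : ∀ k ≤ x, ∃ L, ∀ m < k, false ∈ (F (seg A L) (Nat.pair a m)).map
          fun m => decide (m = 0) := by
        intro k hk
        induction k with
        | zero => exact ⟨0, fun m hm => absurd hm (Nat.not_lt_zero m)⟩
        | succ k ih =>
          obtain ⟨L, hL⟩ := ih (Nat.le_of_succ_le hk)
          obtain ⟨c, hc, ec⟩ := (Part.mem_map_iff _).1 (@h1 k hk)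
          obtain ⟨l1, hl1⟩ := (F3 _ _).1 hc
          refine ⟨max L l1, fun m hm => ?_⟩
          rcases Nat.lt_succ_iff_lt_or_eq.1 hm with hm | rfl
          · obtain ⟨d, hd, ed⟩ := (Part.mem_map_iff _).1 (hL m hm)
            exact (Part.mem_map_iff _).2 ⟨d, F2 _ _ _ _ (le_max_left _ _) hd, ed⟩
          · exact (Part.mem_map_iff _).2 ⟨c, F2 _ _ _ _ (le_max_right _ _) hl1, ec⟩
      obtain ⟨L, hL⟩ := this x le_rfl
      refine ⟨max L l0, ?_⟩
      rw [Nat.mem_rfind]
      refine ⟨(Part.mem_map_iff _).2 ⟨b, F2 _ _ _ _ (le_max_right _ _) hl0, e⟩, fun {m} hm => ?_⟩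
      obtain ⟨d, hd, ed⟩ := (Part.mem_map_iff _).1 (hL m hm)
      exact (Part.mem_map_iff _).2 ⟨d, F2 _ _ _ _ (le_max_left _ _) hd, ed⟩
    · rintro ⟨ℓ, h⟩
      rw [Nat.mem_rfind] at h ⊢
      simp only [Part.map_eq_map]
      refine ⟨?_, fun {m} hm => ?_⟩
      · obtain ⟨b, hb, e⟩ := (Part.mem_map_iff _).1 h.1
        exact (Part.mem_map_iff _).2 ⟨b, (F3 _ _).2 ⟨ℓ, hb⟩, e⟩
      · obtain ⟨b, hb, e⟩ := (Part.mem_map_iff _).1 (h.2 hm)
        exact (Part.mem_map_iff _).2 ⟨b, (F3 _ _).2 ⟨ℓ, hb⟩, e⟩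

theorem hasFun_of_recursiveIn {A : ℕ → Bool} {f : ℕ →. ℕ} (hf : Nat.RecursiveIn {chi A} f) :
    HasFun A f := by
  induction hf with
  | zero => exact hasFun_of_partrec Nat.Partrec.zero
  | succ => exact hasFun_of_partrec Nat.Partrec.succ
  | left => exact hasFun_of_partrec Nat.Partrec.left
  | right => exact hasFun_of_partrec Nat.Partrec.right
  | oracle g hg =>
    rw [Set.mem_singleton_iff.1 hg]
    exact hasFun_chi A
  | pair _ _ ihf ihg => exact ihf.pair ihg
  | comp _ _ ihf ihg => exact ihf.comp ihg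
  | prec _ _ ihf ihg => exact ihf.prec ihg
  | rfind _ ihf => exact ihf.rfind

/-- **Use principle.** -/
theorem exists_code_of_recursiveIn {A : ℕ → Bool} {f : ℕ →. ℕ}
    (hf : Nat.RecursiveIn {chi A} f) :
    ∃ c : Code, ∀ n x, x ∈ f n ↔ ∃ ℓ, x ∈ c.eval (Nat.pair (encode (seg A ℓ)) n) := by
  obtain ⟨F, F1, F2, F3⟩ := hasFun_of_recursiveIn hf
  have h1 : Partrec (fun m : ℕ => ((decode (α := List Bool) m.unpair.1 : Option (List Bool)) :
      Part (List Bool)).bind fun σ => F σ m.unpair.2) := by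
    refine Partrec.bind (f := fun m : ℕ => ((decode (α := List Bool) m.unpair.1 :
      Option (List Bool)) : Part (List Bool))) (Computable.ofOption ?_) ?_
    · exact Computable.decode.comp (Computable.fst.comp Computable.unpair)
    · exact F1.comp Computable.snd (Computable.snd.comp (Computable.unpair.comp Computable.fst))
  obtain ⟨c, hc⟩ := Code.exists_code.1 (Partrec.nat_iff.1 h1)
  refine ⟨c, fun n x => ?_⟩
  rw [F3]
  simp only [hc, Nat.unpair_pair, encodek, Part.coe_some, Part.bind_some]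

end Pool.Agent.MP_33dedf_lc
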